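import Pool.Agent.Helper47_BS.Defs

/-! # BS squad: basic lemmas on rotation systems and interfaces -/

set_option autoImplicit false

namespace Pool.Agent.BS

open Function

namespace TMap

variable {D V : Type} (T : TMap D V)

@[simp] theorem al_al' (d : D) : T.al (T.al d) = d := T.al_al d
@[simp] theorem al_symm (d : D) : T.al.symm d = T.al d := by
  rw [Equiv.symm_apply_eq, T.al_al]
@[simp] theorem lf_al (d : D) : T.lf (T.al d) = T.rt d := rfl
@[simp] theorem rt_al (d : D) : T.rt (T.al d) = T.lf d := by simp [rt]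
@[simp] theorem lf_lam' (d : D) : T.lf (T.lam d) = T.lf d := T.lf_lam d
@[simp] theorem lf_lam_symm' (d : D) : T.lf (T.lam.symm d) = T.lf d := T.lf_lam_symm d
theorem rt_lam (d : D) : T.rt (T.lam d) = T.tau d := rfl

@[simp] theorem rt_rho (d : D) : T.rt (T.rho d) = T.rt d := by
  rw [rho_apply, rt_al, lf_lam_symm', lf_al]

@[simp] theorem rt_rho_symm (d : D) : T.rt (T.rho.symm d) = T.rt d := by
  rw [rho_symm_apply, rt_al, lf_lam', lf_al]

theorem lf_rho (d : D) : T.lf (T.rho d) = T.tau d := by
  have h := T.tri (T.al (T.lam d))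
  rw [T.al_al] at h
  -- lam (al (lam (al (lam (lam d))))) = al (lam d)
  have h2 : T.lf (T.al (T.lam (T.al (T.lam (T.lam d))))) = T.lf (T.al (T.lam d)) := by
    rw [← T.lf_lam (T.al (T.lam (T.al (T.lam (T.lam d))))), h]
  -- rho d
  have h3 := T.tri (T.lam.symm (T.al d))
  have h4 : T.lam (T.al (T.lam (T.al (T.lam (T.rho d))))) = T.lam.symm (T.al d) := by
    rw [rho_apply]; exact h3
  have h5 := T.tri d
  -- lam al lam al lam (al d) = d
  rw [rho_apply, lf_al]
  -- rt (lam.symm (al d)) = tau d
  have h6 : T.lam.symm (T.lam (T.al (T.lam (T.al (T.lam (T.al d)))))) = T.lam.symm d := by rw [h5]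
  have h7 := T.tri (T.al (T.lam.symm (T.al d)))
  rw [T.al_al, Equiv.apply_symm_apply] at h7
  -- lam (al (lam (al (al d)))) = al (lam.symm (al d))
  rw [T.al_al] at h7
  have h8 : T.lf (T.al (T.lam.symm (T.al d))) = T.lf (T.al (T.lam d)) := by
    rw [← h7, T.lf_lam]
  exact h8

theorem lf_rho_symm (d : D) : T.lf (T.rho.symm d) = T.rt (T.lam.symm d) := by
  have h := T.lf_rho (T.rho.symm d)
  have h2 := T.tri (T.al (T.lam.symm d))
  rw [T.al_al, Equiv.apply_symm_apply] at h2
  -- lam (al (lam (al d))) = al (lam.symm d)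
  rw [rho_symm_apply]
  change T.lf (T.al (T.lam (T.al d))) = T.lf (T.al (T.lam.symm d))
  rw [← h2, T.lf_lam]

/-- the face behind `d` is the face ahead of `al d` -/
theorem tau_al (d : D) : T.tau (T.al d) = T.rt (T.lam.symm d) := by
  rw [← lf_rho_symm, rho_symm_apply]
  rfl

theorem tau_eq (d : D) : T.tau d = T.rt (T.lam.symm (T.al d)) := by
  rw [← tau_al, T.al_al]

@[simp] theorem mirror_lam : T.mirror.lam = T.lam.symm := rfl
@[simp] theorem mirror_al : T.mirror.al = T.al := rfl
@[simp] theorem mirror_lf : T.mirror.lf = T.lf := rfl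
@[simp] theorem mirror_rt : T.mirror.rt = T.rt := rfl
@[simp] theorem mirror_star : T.mirror.star = T.star := rfl
@[simp] theorem mirror_mirror : T.mirror.mirror = T := rfl
@[simp] theorem mirror_rho : T.mirror.rho = T.rho.symm := by
  ext d
  rw [rho_symm_apply]
  rfl
theorem mirror_tau (d : D) : T.mirror.tau d = T.rt (T.lam.symm d) := rfl
@[simp] theorem mirror_nx (c : V → Bool) : T.mirror.nx c = T.pv c := by
  funext d
  simp only [nx, pv, mirror_tau, mirror_rho, mirror_lam]
@[simp] theorem mirror_pv (c : V → Bool) : T.mirror.pv c = T.nx c := by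
  have h := T.mirror.mirror_nx c
  rw [mirror_mirror] at h
  exact h.symm
@[simp] theorem mirror_State : T.mirror.State = T.State := rfl
@[simp] theorem mirror_Adj : T.mirror.Adj = T.Adj := rfl
@[simp] theorem mirror_Reach : T.mirror.Reach = T.Reach := rfl
@[simp] theorem mirror_bay : T.mirror.bay = T.bay := rfl
@[simp] theorem mirror_hull : T.mirror.hull = T.hull := rfl
@[simp] theorem mirror_vP (E : Env D V) : T.mirror.vP E = T.vP E := rfl
@[simp] theorem mirror_vF (E : Env D V) : T.mirror.vF E = T.vF E := rfl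
theorem mirror_Deg (Δ : ℕ) : T.mirror.Deg Δ ↔ T.Deg Δ := Iff.rfl
theorem IsFlow.mirror {T : TMap D V} {K : ℕ} {θ : D → ℤ} (h : T.IsFlow K θ) :
    T.mirror.IsFlow K θ := ⟨h.anti, h.bdd, h.div⟩

theorem mirror_act (g : Gam) : T.mirror.act g = T.act (sig g) := by
  have h : T.mirror.act = T.act.comp sig := by
    refine FreeGroup.ext_hom _ _ ?_
    intro b
    cases b
    · change T.mirror.act L = T.act (sig L)
      rw [sig_L, act_L, map_inv, act_L]
      rfl
    · change T.mirror.act A = T.act (sig A)
      rw [sig_A, act_A, act_A]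
      rfl
  rw [h]
  rfl

theorem mirror_ball (d : D) (n : ℕ) : T.mirror.ball d n = T.ball d n := by
  induction n with
  | zero => rfl
  | succ n ih =>
    ext e
    simp only [ball, ih, mirror_lam, mirror_al, Set.mem_ofPred_eq, Equiv.symm_symm]
    constructor
    · rintro ⟨f, hf, h | h | h | h⟩ <;> exact ⟨f, hf, by tauto⟩
    · rintro ⟨f, hf, h | h | h | h⟩ <;> exact ⟨f, hf, by tauto⟩

/-! ### states -/

variable {T} {c : V → Bool} {s : D}

theorem State.nx (h : T.State c s) : T.State c (T.nx c s) := by
  unfold TMap.nx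
  split_ifs with h1
  · exact ⟨by rw [T.lf_rho]; exact h1, by rw [T.rt_rho]; exact h.2⟩
  · exact ⟨by rw [T.lf_lam]; exact h.1, by rw [T.rt_lam]; simpa using h1⟩

theorem State.pv (h : T.State c s) : T.State c (T.pv c s) := by
  have h2 : T.mirror.State c s := h
  have h3 := h2.nx
  rw [mirror_nx] at h3
  exact h3

theorem State.pv_nx (h : T.State c s) : T.pv c (T.nx c s) = s := by
  unfold TMap.nx
  split_ifs with h1
  · -- nx = rho s; behind vertex of rho s is lf s, open
    unfold TMap.pv
    have e : T.rt (T.lam.symm (T.rho s)) = T.lf s := by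
      rw [← lf_rho_symm, Equiv.symm_apply_apply]
    rw [e, if_pos h.1, Equiv.symm_apply_apply]
  · unfold TMap.pv
    rw [Equiv.symm_apply_apply, if_neg (by simp [h.2])]

theorem State.nx_pv (h : T.State c s) : T.nx c (T.pv c s) = s := by
  have h2 : T.mirror.State c s := h
  have h3 := h2.pv_nx
  rw [mirror_nx, mirror_pv] at h3
  exact h3

theorem State.iterate_nx (h : T.State c s) (n : ℕ) : T.State c ((T.nx c)^[n] s) := by
  induction n with
  | zero => exact h
  | succ n ih => rw [Function.iterate_succ_apply']; exact ih.nx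

theorem State.iterate_pv (h : T.State c s) (n : ℕ) : T.State c ((T.pv c)^[n] s) := by
  induction n with
  | zero => exact h
  | succ n ih => rw [Function.iterate_succ_apply']; exact ih.pv

theorem State.st (h : T.State c s) (i : ℤ) : T.State c (T.st c s i) := by
  cases i with
  | ofNat n => exact h.iterate_nx n
  | negSucc n => exact h.iterate_pv (n + 1)

@[simp] theorem st_zero : T.st c s 0 = s := rfl

theorem st_natCast (n : ℕ) : T.st c s n = (T.nx c)^[n] s := rfl

theorem st_neg_natCast (n : ℕ) : T.st c s (-(n : ℤ)) = (T.pv c)^[n] s := by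
  cases n with
  | zero => rfl
  | succ n => rfl

theorem State.st_succ (h : T.State c s) (i : ℤ) : T.st c s (i + 1) = T.nx c (T.st c s i) := by
  cases i with
  | ofNat n =>
    change (T.nx c)^[n + 1] s = T.nx c ((T.nx c)^[n] s)
    rw [Function.iterate_succ_apply']
  | negSucc n =>
    have e : (Int.negSucc n + 1 : ℤ) = -(n : ℤ) := by
      rw [Int.negSucc_eq]; ring
    rw [e, st_neg_natCast]
    change _ = T.nx c ((T.pv c)^[n + 1] s)
    rw [Function.iterate_succ_apply', (h.iterate_pv n).nx_pv]

theorem State.st_pred (h : T.State c s) (i : ℤ) : T.st c s (i - 1) = T.pv c (T.st c s i) := by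
  have h2 := h.st_succ (i - 1)
  rw [sub_add_cancel] at h2
  rw [h2, (h.st (i - 1)).pv_nx]

theorem State.st_add_nat (h : T.State c s) (i : ℤ) (n : ℕ) :
    T.st c s (i + n) = (T.nx c)^[n] (T.st c s i) := by
  induction n with
  | zero => simp
  | succ n ih =>
    rw [Function.iterate_succ_apply', ← ih, ← h.st_succ]
    congr 1
    push_cast
    ring

theorem State.st_sub_nat (h : T.State c s) (i : ℤ) (n : ℕ) :
    T.st c s (i - n) = (T.pv c)^[n] (T.st c s i) := by
  induction n with
  | zero => simp
  | succ n ih =>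
    rw [Function.iterate_succ_apply', ← ih, ← h.st_pred]
    congr 1
    push_cast
    ring

theorem State.st_st (h : T.State c s) (i j : ℤ) :
    T.st c (T.st c s i) j = T.st c s (i + j) := by
  obtain ⟨n, rfl | rfl⟩ := j.eq_nat_or_neg
  · rw [h.st_add_nat, st_natCast]
  · rw [st_neg_natCast, ← sub_eq_add_neg, h.st_sub_nat]

theorem mirror_st (c : V → Bool) (s : D) (i : ℤ) : T.mirror.st c s i = T.st c s (-i) := by
  obtain ⟨n, rfl | rfl⟩ := i.eq_nat_or_neg
  · rw [st_natCast, mirror_nx, st_neg_natCast]
  · rw [st_neg_natCast, mirror_pv, neg_neg, st_natCast]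

/-- consecutive left vertices are equal or adjacent -/
theorem State.lf_succ (h : T.State c s) (i : ℤ) :
    T.lf (T.st c s (i + 1)) = T.lf (T.st c s i) ∧ T.rt (T.st c s (i + 1)) = T.tau (T.st c s i) ∧
      c (T.tau (T.st c s i)) = false ∨
    T.rt (T.st c s (i + 1)) = T.rt (T.st c s i) ∧ T.lf (T.st c s (i + 1)) = T.tau (T.st c s i) ∧
      c (T.tau (T.st c s i)) = true := by
  rw [h.st_succ]
  unfold TMap.nx
  split_ifs with h1
  · right
    exact ⟨T.rt_rho _, T.lf_rho _, h1⟩
  · left
    exact ⟨T.lf_lam _, rfl, by simpa using h1⟩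

/-! ### adjacency -/

theorem Adj.symm {u v : V} (h : T.Adj u v) : T.Adj v u := by
  obtain ⟨d, rfl, rfl⟩ := h
  exact ⟨T.al d, rfl, T.rt_al d⟩

theorem adj_lf_rt (d : D) : T.Adj (T.lf d) (T.rt d) := ⟨d, rfl, rfl⟩

theorem adj_lf_tau (d : D) : T.Adj (T.lf d) (T.tau d) := ⟨T.lam d, T.lf_lam d, rfl⟩

theorem adj_tau_rt (d : D) : T.Adj (T.tau d) (T.rt d) := ⟨T.rho d, T.lf_rho d, T.rt_rho d⟩

theorem lf_ne_rt (d : D) : T.lf d ≠ T.rt d := fun h => T.no_loop d h.symm

theorem ext_lf_rt {d e : D} (h1 : T.lf d = T.lf e) (h2 : T.rt d = T.rt e) : d = e :=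
  T.simple d e h1 h2

variable (T)

theorem act_L_mul (g : Gam) (d : D) : T.act (L * g) d = T.lam (T.act g d) := by
  rw [map_mul, act_L]; rfl

theorem act_A_mul (g : Gam) (d : D) : T.act (A * g) d = T.al (T.act g d) := by
  rw [map_mul, act_A]; rfl

theorem act_L_inv_mul (g : Gam) (d : D) : T.act (L⁻¹ * g) d = T.lam.symm (T.act g d) := by
  rw [map_mul, map_inv, act_L]; rfl

theorem act_mul_apply (g h : Gam) (d : D) : T.act (g * h) d = T.act g (T.act h d) := by
  rw [map_mul]; rfl

theorem act_one_apply (d : D) : T.act 1 d = d := by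
  rw [map_one]; rfl

theorem act_inv_apply (g : Gam) (d e : D) : T.act g⁻¹ d = e ↔ d = T.act g e := by
  rw [map_inv]
  exact Equiv.Perm.inv_eq_iff_eq

theorem act_conn (d d' : D) : ∃ g : Gam, T.act g d = d' := T.conn d d'

/-- induction along darts: a property invariant under `lam` and `al` (in both directions) which holds
somewhere holds everywhere -/
theorem dart_induction {p : D → Prop} (d : D) (h0 : p d) (h1 : ∀ e, p e → p (T.lam e))
    (h2 : ∀ e, p e → p (T.lam.symm e)) (h3 : ∀ e, p e → p (T.al e)) (e : D) : p e := by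
  obtain ⟨g, hg⟩ := T.act_conn d e
  have key : ∀ g : Gam, ∀ d, p d → p (T.act g d) := by
    intro g
    induction g using FreeGroup.induction_on with
    | C1 => intro d hd; rw [act_one_apply]; exact hd
    | of b =>
      intro d hd
      cases b
      · change p (T.act L d)
        rw [act_L]; exact h1 d hd
      · change p (T.act A d)
        rw [act_A]; exact h3 d hd
    | inv_of b _ =>
      intro d hd
      cases b
      · change p (T.act L⁻¹ d)
        rw [map_inv, act_L]; exact h2 d hd
      · change p (T.act A⁻¹ d)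
        rw [map_inv, act_A]
        change p (T.al.symm d)
        rw [T.al_symm]; exact h3 d hd
    | mul g h hg hh => intro d hd; rw [act_mul_apply]; exact hg _ (hh _ hd)
  rw [← hg]
  exact key g d h0

end TMap

/-! ### the code space -/

theorem cod_compact : CompactSpace Cod := inferInstance
theorem cod_borel : BorelSpace Cod := inferInstance
theorem cod_metr : TopologicalSpace.MetrizableSpace Cod := inferInstance
theorem cod_sc : SecondCountableTopology Cod := inferInstance

theorem continuous_bit (k : Kd) (g : Gam) : Continuous (fun X : Cod => X k g) :=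
  (continuous_apply g).comp (continuous_apply k)

theorem measurable_bit (k : Kd) (g : Gam) : Measurable (fun X : Cod => X k g) :=
  (measurable_pi_apply g).comp (measurable_pi_apply k)

end Pool.Agent.BS
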