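import Mathlib

/-!
# BS squad (MP_fc5efa_pr, S19765): definitions

Triangulated surfaces as rotation systems (`TMap`), interfaces of site percolation on them,
environments seen from an interface, and their codes in a Cantor space.

Conventions.  A dart `d` is an oriented edge with left vertex `lf d` and right vertex `rt d`;
the interface crosses the edge and enters the face *ahead* of it, whose third vertex is `tau d`.
`lam d = (lf d, tau d)`, `rho d = (tau d, rt d)`, `al d = (rt d, lf d)`.
A *state* is a dart whose left vertex is open (`true`) and right vertex closed (`false`).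
-/

set_option autoImplicit false

namespace Pool.Agent.BS

open Function

/-- Rotation system of a connected locally finite triangulated surface, given by its darts `D`,
vertices `V`, the permutation `lam` (next dart with the same left vertex), the flip `al`. -/
structure TMap (D V : Type) where
  lam : Equiv.Perm D
  al : Equiv.Perm D
  lf : D → V
  star : V → Finset D
  mem_star : ∀ v d, d ∈ star v ↔ lf d = v
  star_ne : ∀ v, (star v).Nonempty
  lf_lam : ∀ d, lf (lam d) = lf d
  cyc : ∀ d d', lf d = lf d' → ∃ n : ℕ, (lam ^ n) d = d'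
  al_al : ∀ d, al (al d) = d
  tri : ∀ d, lam (al (lam (al (lam (al d))))) = d
  no_loop : ∀ d, lf (al d) ≠ lf d
  simple : ∀ d d', lf d = lf d' → lf (al d) = lf (al d') → d = d'
  conn : ∀ d d', ∃ g : FreeGroup Bool,
    FreeGroup.lift (fun b : Bool => if b then al else lam) g d = d'

namespace TMap

variable {D V : Type} (T : TMap D V)

/-- right vertex -/
def rt (d : D) : V := T.lf (T.al d)

/-- next dart with the same right vertex -/
def rho : Equiv.Perm D := (T.al.trans T.lam.symm).trans T.al

/-- third vertex of the face ahead of the dart -/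
def tau (d : D) : V := T.rt (T.lam d)

/-- all degrees are at most `Δ` -/
def Deg (Δ : ℕ) : Prop := ∀ v, (T.star v).card ≤ Δ

/-- `θ` is an integer flow bounded by `K` with divergence at least one everywhere -/
structure IsFlow (K : ℕ) (θ : D → ℤ) : Prop where
  anti : ∀ d, θ (T.al d) = - θ d
  bdd : ∀ d, |θ d| ≤ (K : ℤ)
  div : ∀ v, 1 ≤ ∑ d ∈ T.star v, θ d

/-! ### the mirror image -/

/-- The action of the free group on darts: `of false` acts as `lam`, `of true` as `al`. -/
def act : FreeGroup Bool →* Equiv.Perm D :=
  FreeGroup.lift (fun b : Bool => if b then T.al else T.lam)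

end TMap

/-- the generators -/
def L : FreeGroup Bool := FreeGroup.of false
/-- the generators -/
def A : FreeGroup Bool := FreeGroup.of true

/-- the automorphism `L ↦ L⁻¹`, `A ↦ A` of the free group -/
def sig : FreeGroup Bool →* FreeGroup Bool :=
  FreeGroup.lift (fun b : Bool => if b then A else L⁻¹)

theorem sig_L : sig L = L⁻¹ := by simp [sig, L]
theorem sig_A : sig A = A := by simp [sig, A]

theorem sig_sig (g : FreeGroup Bool) : sig (sig g) = g := by
  have h : (sig.comp sig) = MonoidHom.id _ := by
    ext b
    cases b
    · change sig (sig L) = L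
      rw [sig_L, map_inv, sig_L, inv_inv]
    · change sig (sig A) = A
      rw [sig_A, sig_A]
  exact DFunLike.congr_fun h g

namespace TMap

variable {D V : Type} (T : TMap D V)

theorem act_L : T.act L = T.lam := by simp [act, L]
theorem act_A : T.act A = T.al := by simp [act, A]

theorem rho_apply (d : D) : T.rho d = T.al (T.lam.symm (T.al d)) := rfl
theorem rho_symm_apply (d : D) : T.rho.symm d = T.al (T.lam (T.al d)) := by
  rw [Equiv.symm_apply_eq, rho_apply, T.al_al, Equiv.symm_apply_apply, T.al_al]

theorem lf_lam_symm (d : D) : T.lf (T.lam.symm d) = T.lf d := by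
  have h := T.lf_lam (T.lam.symm d)
  rw [Equiv.apply_symm_apply] at h
  exact h.symm

/-- orientation reversal: same darts, `lam` replaced by its inverse -/
def mirror : TMap D V where
  lam := T.lam.symm
  al := T.al
  lf := T.lf
  star := T.star
  mem_star := T.mem_star
  star_ne := T.star_ne
  lf_lam := T.lf_lam_symm
  cyc := by
    intro d d' h
    obtain ⟨n, hn⟩ := T.cyc d' d h.symm
    refine ⟨n, ?_⟩
    have e : T.lam.symm ^ n = (T.lam ^ n).symm := by
      change T.lam⁻¹ ^ n = (T.lam ^ n)⁻¹
      rw [inv_pow]
    rw [← hn, e, Equiv.symm_apply_apply]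
  al_al := T.al_al
  tri := by
    intro d
    have h := T.tri (T.al (T.lam.symm (T.al (T.lam.symm (T.al (T.lam.symm (T.al d)))))))
    simp only [T.al_al, Equiv.apply_symm_apply] at h
    have h2 := congrArg T.al h
    simp only [T.al_al] at h2
    exact h2.symm
  no_loop := T.no_loop
  simple := T.simple
  conn := by
    intro d d'
    obtain ⟨g, hg⟩ := T.conn d d'
    refine ⟨sig g, ?_⟩
    rw [← hg]
    have h : (FreeGroup.lift (fun b : Bool => if b then T.al else T.lam.symm)).comp sig
        = FreeGroup.lift (fun b : Bool => if b then T.al else T.lam) := by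
      refine FreeGroup.ext_hom _ _ ?_
      intro b
      cases b
      · simp only [MonoidHom.comp_apply, sig, L, FreeGroup.lift_apply_of]
        rfl
      · simp only [MonoidHom.comp_apply, sig, A, FreeGroup.lift_apply_of]
        rfl
    have h2 := DFunLike.congr_fun h g
    rw [← h2]
    rfl

/-! ### interfaces -/

/-- `d` is a state of the coloring `c`: left vertex open, right vertex closed -/
def State (c : V → Bool) (d : D) : Prop := c (T.lf d) = true ∧ c (T.rt d) = false

/-- next dart of the interface -/
def nx (c : V → Bool) (d : D) : D := if c (T.tau d) then T.rho d else T.lam d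

/-- previous dart of the interface -/
def pv (c : V → Bool) (d : D) : D :=
  if c (T.rt (T.lam.symm d)) then T.rho.symm d else T.lam.symm d

/-- the (bi-infinite) interface through `s` -/
def st (c : V → Bool) (s : D) : ℤ → D
  | Int.ofNat n => (T.nx c)^[n] s
  | Int.negSucc n => (T.pv c)^[n + 1] s

/-! ### planarity -/

/-- `p 0, ..., p n` is a turn path: each dart is `lam` or `rho` of the previous one -/
def IsTurn (p : ℕ → D) (n : ℕ) : Prop :=
  ∀ k < n, p (k + 1) = T.lam (p k) ∨ p (k + 1) = T.rho (p k)

open Classical in
/-- number of passages of `p 0, ..., p (n-1)` through `d` minus number through `al d` -/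
noncomputable def cnt (p : ℕ → D) (n : ℕ) (d : D) : ℤ :=
  ∑ k ∈ Finset.range n, ((if p k = d then 1 else 0) - (if p k = T.al d then 1 else 0))

/-- Planarity: every closed turn path has a finitely supported potential. -/
def Planar : Prop :=
  ∀ (p : ℕ → D) (n : ℕ), T.IsTurn p n → p n = p 0 →
    ∃ χ : V → ℤ, (support χ).Finite ∧ ∀ d, T.cnt p n d = χ (T.lf d) - χ (T.rt d)

/-- adjacency of vertices -/
def Adj (u v : V) : Prop := ∃ d, T.lf d = u ∧ T.rt d = v

/-- `y` can be reached from `x` by steps into vertices not in `Z` -/
def Reach (Z : Set V) (x y : V) : Prop :=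
  Relation.ReflTransGen (fun u v => v ∉ Z ∧ T.Adj u v) x y

/-- a set of vertices is connected (within itself) -/
def Conn (S : Set V) : Prop := ∀ x ∈ S, ∀ y ∈ S, T.Reach Sᶜ x y

/-- darts reachable from `d` in at most `n` steps `lam`, `lam.symm`, `al` -/
def ball (d : D) : ℕ → Set D
  | 0 => {d}
  | n + 1 => {e | ∃ f ∈ ball d n, e = f ∨ e = T.lam f ∨ e = T.lam.symm f ∨ e = T.al f}

/-! ### loops -/

/-- The interface of `c` through the state `s` is a simple loop of exact length `ℓ`, whose darts are
exactly the boundary darts of the finite set `H` (the inside; it contains `lf s`). -/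
def IsLoop (c : V → Bool) (s : D) (ℓ : ℕ) (H : Finset V) : Prop :=
  0 < ℓ ∧ T.State c s ∧ (T.nx c)^[ℓ] s = s ∧
    (∀ i j : ℕ, i < j → j < ℓ → (T.nx c)^[i] s ≠ (T.nx c)^[j] s) ∧
    ∀ d, (T.lf d ∈ H ∧ T.rt d ∉ H) ↔ ∃ k < ℓ, (T.nx c)^[k] s = d

/-- The bay of `y` (relative to `H`): vertices outside `H ∪ {y}` whose component in the complement of
`H ∪ {y}` is finite. -/
def bay (H : Set V) (y : V) : Set V :=
  {x | x ∉ H ∧ x ≠ y ∧ {z | T.Reach (insert y H) x z}.Finite}

/-- `H` with all `y` having a bay of size at least `m`, and their bays, added. -/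
def hull (H : Set V) (m : ℕ) : Set V :=
  H ∪ {x | ∃ y, y ∉ H ∧ m ≤ (T.bay H y).ncard ∧ (x = y ∨ x ∈ T.bay H y)}

end TMap

/-! ### environments and codes -/

/-- coloring, past-marked darts, future-marked darts, vertex marks, root -/
structure Env (D V : Type) where
  c : V → Bool
  P : Set D
  F : Set D
  B : ℕ → Set V
  r : D

/-- kinds of bits of a code -/
inductive Kd
  | col | past | fut | eq
  | beta (m : ℕ)
  | th (z : ℤ)
  deriving DecidableEq

/-- exchange past and future -/
def Kd.swap : Kd → Kd
  | .col => .col | .past => .fut | .fut => .past | .eq => .eq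
  | .beta m => .beta m | .th z => .th z

abbrev Gam := FreeGroup Bool

/-- the space of codes (a Cantor space) -/
abbrev Cod := Kd → Gam → Bool

instance : Countable Kd := by
  let f : Kd → (Fin 4 ⊕ ℕ) ⊕ ℤ := fun k => match k with
    | .col => Sum.inl (Sum.inl 0) | .past => Sum.inl (Sum.inl 1) | .fut => Sum.inl (Sum.inl 2)
    | .eq => Sum.inl (Sum.inl 3) | .beta m => Sum.inl (Sum.inr m) | .th z => Sum.inr z
  refine Function.Injective.countable (f := f) ?_
  intro a b h
  cases a <;> cases b <;> simp_all [f]

instance : Countable Gam := by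
  have h : Function.Surjective (FreeGroup.mk : List (Bool × Bool) → Gam) := Quot.mk_surjective
  exact h.countable

namespace TMap

variable {D V : Type} (T : TMap D V)

open Classical in
/-- the code of an environment -/
noncomputable def enc (θ : D → ℤ) (E : Env D V) : Cod := fun k g =>
  match k with
  | .col => E.c (T.lf (T.act g E.r))
  | .past => decide (T.act g E.r ∈ E.P)
  | .fut => decide (T.act g E.r ∈ E.F)
  | .eq => decide (T.act g E.r = E.r)
  | .beta m => decide (T.lf (T.act g E.r) ∈ E.B m)
  | .th z => decide (θ (T.act g E.r) = z)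

/-- vertices of past-marked darts -/
def vP (E : Env D V) : Set V := {v | ∃ e ∈ E.P, T.lf e = v ∨ T.rt e = v}

/-- vertices of future-marked darts -/
def vF (E : Env D V) : Set V := {v | ∃ e ∈ E.F, T.lf e = v ∨ T.rt e = v}

open Classical in
/-- flip the colors of the vertices in `S` which are not vertices of past-marked darts -/
noncomputable def flipE (S : Set V) (E : Env D V) : Env D V :=
  { E with c := fun v => if v ∈ S ∧ v ∉ T.vP E then !(E.c v) else E.c v }

/-- exchange past and future marks -/
def _root_.Pool.Agent.BS.Env.mir (E : Env D V) : Env D V := { E with P := E.F, F := E.P }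

/-- The environment of the root moved to the next dart of the interface. -/
def shE (E : Env D V) : Env D V :=
  { E with P := insert (T.nx E.c E.r) E.P, F := E.F \ {E.r}, r := T.nx E.c E.r }

/-- the darts of the interface through the root -/
def strand (E : Env D V) : Set D := Set.range (T.st E.c E.r)

/-- the environment seen from time `i` of the interface -/
def atE (E : Env D V) (i : ℤ) : Env D V :=
  { E with
    P := (E.P \ T.strand E) ∪ {d | ∃ j ≤ i, T.st E.c E.r j = d}
    F := (E.F \ T.strand E) ∪ {d | ∃ j ≥ i, T.st E.c E.r j = d}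
    r := T.st E.c E.r i }

/-- The standing properties of a limit environment. -/
structure Good (E : Env D V) : Prop where
  state : T.State E.c E.r
  inj : Injective (T.st E.c E.r)
  memP : ∀ i : ℤ, T.st E.c E.r i ∈ E.P ↔ i ≤ 0
  memF : ∀ i : ℤ, T.st E.c E.r i ∈ E.F ↔ 0 ≤ i
  stP : ∀ d ∈ E.P, T.State E.c d
  stF : ∀ d ∈ E.F, T.State E.c d

/-- The environment at step `k` of the loop (or path) of length `ℓ` through `s`. -/
def smp (c : V → Bool) (B : ℕ → Set V) (s : D) (ℓ k : ℕ) : Env D V where
  c := c
  P := {d | ∃ j ≤ k, (T.nx c)^[j] s = d}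
  F := {d | ∃ j, k ≤ j ∧ j ≤ ℓ ∧ (T.nx c)^[j] s = d}
  B := B
  r := (T.nx c)^[k] s

end TMap

open Classical in
/-- the coloring with open set `ω` -/
noncomputable def colF {V : Type} (ω : Finset V) : V → Bool := fun v => decide (v ∈ ω)

/-! ### maps on codes -/

/-- mirror map on codes -/
def Mi (X : Cod) : Cod := fun k g => X k.swap (sig g)

/-- the letter by which the root moves -/
def stepW (X : Cod) : Gam := if X .col (A * L) then A * L⁻¹ * A else L

/-- shift on codes -/
def Sh (X : Cod) : Cod := fun k g =>
  match k with
  | .col => X .col (g * stepW X)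
  | .past => X .past (g * stepW X) || X .eq ((stepW X)⁻¹ * g * stepW X)
  | .fut => X .fut (g * stepW X) && !(X .eq (g * stepW X))
  | .eq => X .eq ((stepW X)⁻¹ * g * stepW X)
  | .beta m => X (.beta m) (g * stepW X)
  | .th z => X (.th z) (g * stepW X)

/-- backward shift on codes -/
def Sb (X : Cod) : Cod := Mi (Sh (Mi X))

/-- forget future marks and vertex marks -/
def PrP (X : Cod) : Cod := fun k g =>
  match k with
  | .fut => false
  | .beta _ => false
  | k => X k g

/-- `lf (g • r) = lf (h • r)`, tested with at most `Δ` powers of `L` -/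
def sameV (Δ : ℕ) (X : Cod) (g h : Gam) : Bool :=
  (List.range (Δ + 1)).any (fun n => X .eq (g⁻¹ * L ^ n * h))

/-- the vertex `lf (g • r)` is a vertex of a past-marked dart -/
def inVP (Δ : ℕ) (X : Cod) (g : Gam) : Bool :=
  (List.range (Δ + 1)).any (fun n => X .past (L ^ n * g) || X .past (A * L ^ n * g))

open Classical in
/-- flip the colors of the vertices `lf (g • r)`, `g ∈ S`, outside the vertices of the past -/
noncomputable def FlP (Δ : ℕ) (S : Finset Gam) (X : Cod) : Cod := fun k h =>
  match k with
  | .col => if (∃ g ∈ S, sameV Δ X g h = true) ∧ inVP Δ X h = false then !(X .col h) else X .col h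
  | k => X k h

/-- flip the colors of all vertices outside the vertices of the past -/
def FlT (Δ : ℕ) (X : Cod) : Cod := fun k h =>
  match k with
  | .col => if inVP Δ X h = false then !(X .col h) else X .col h
  | k => X k h

/-- value of the flow at the root -/
noncomputable def th0 (K : ℕ) (X : Cod) : ℝ :=
  ∑ z ∈ Finset.Icc (-(K : ℤ)) K, if X (.th z) 1 then (z : ℝ) else 0

/-- `(T, θ, E)` is a representation of the code `X` -/
structure IsRep (Δ K : ℕ) {D V : Type} (T : TMap D V) (θ : D → ℤ) (E : Env D V) (X : Cod) : Prop where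
  planar : T.Planar
  deg : T.Deg Δ
  flow : T.IsFlow K θ
  eq : X = T.enc θ E

/-- valid codes -/
def Valid (Δ K : ℕ) (X : Cod) : Prop :=
  ∃ (D V : Type) (T : TMap D V) (θ : D → ℤ) (E : Env D V), IsRep Δ K T θ E X

end Pool.Agent.BS
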