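import Pool.Agent.Helper47_BS.Stmts

/-! # BS squad: assembly of exponential decay -/

set_option autoImplicit false

namespace Pool.Agent.BS.H47

open Function Filter MeasureTheory Topology Pool.Agent.BS

theorem half_of (hv : HValidStmt) (hg : HGoodStmt) (hs : HShiftStmt) (hf : HFlipStmt)
    (hd : HDriftStmt) (hm : HMonoStmt) (hc : HChangeStmt) (ho : HOldStmt) (hx : HCrossStmt) :
    HalfStmt (fun Δ K μ => Half Δ K μ) := by
  intro D V T Δ K θ s ℓ Λ A H 𝒰 μ h1 h2 h3 h4 h5 h6 h7 h8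
  exact ⟨hv D V T Δ K θ s ℓ Λ A H 𝒰 μ h1 h2 h3 h4 h5 h6 h7 h8,
    hg D V T Δ K θ s ℓ Λ A H 𝒰 μ h1 h2 h3 h4 h5 h6 h7 h8,
    hs D V T Δ K θ s ℓ Λ A H 𝒰 μ h1 h2 h3 h4 h5 h6 h7 h8,
    hf D V T Δ K θ s ℓ Λ A H 𝒰 μ h1 h2 h3 h4 h5 h6 h7 h8,
    hd D V T Δ K θ s ℓ Λ A H 𝒰 μ h1 h2 h3 h4 h5 h6 h7 h8,
    hm D V T Δ K θ s ℓ Λ A H 𝒰 μ h1 h2 h3 h4 h5 h6 h7 h8,
    hc D V T Δ K θ s ℓ Λ A H 𝒰 μ h1 h2 h3 h4 h5 h6 h7 h8,
    ho D V T Δ K θ s ℓ Λ A H 𝒰 μ h1 h2 h3 h4 h5 h6 h7 h8,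
    hx D V T Δ K θ s ℓ Λ A H 𝒰 μ h1 h2 h3 h4 h5 h6 h7 h8⟩

theorem edAsm (hmp : MirPlanarStmt) (hcont : ContStmt) (hlim : LimStmt) (hms : MirSeqStmt)
    (hv : HValidStmt) (hg : HGoodStmt) (hs : HShiftStmt) (hf : HFlipStmt)
    (hd : HDriftStmt) (hm : HMonoStmt) (hc : HChangeStmt) (ho : HOldStmt) (hx : HCrossStmt)
    (hn : NoLimStmt) : EDStmt := by
  intro D V T Δ K θ hP hΔ hθ
  by_contra hcon
  push Not at hcon
  have hcon' : ∀ n : ℕ, ∃ (s : D) (ℓ : ℕ) (Λ : Finset V), n ≤ ℓ ∧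
      (∀ d ∈ T.ball s (8 * ℓ), T.lf d ∈ Λ) ∧
      open Classical in
      Real.exp (-((1 / ((n : ℝ) + 1)) * ℓ)) * 2 ^ Λ.card <
      (((Λ.powerset.filter (fun ω => ∃ H, T.IsLoop (colF ω) s ℓ H)).card : ℕ) : ℝ) := by
    intro n
    obtain ⟨s, ℓ, h1, Λ, h2, h3⟩ := hcon (1 / ((n : ℝ) + 1)) (by positivity) n
    exact ⟨s, ℓ, Λ, h1, h2, h3⟩
  choose s ℓ Λ hℓ hΛ hbig using hcon'
  classical
  set A' : ℕ → Finset (Finset V) := fun n =>
    (Λ n).powerset.filter (fun ω => ∃ H, T.IsLoop (colF ω) (s n) (ℓ n) H) with hA'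
  have hbig' : ∀ n : ℕ, Real.exp (-((1 / ((n : ℝ) + 1)) * ℓ n)) * 2 ^ (Λ n).card
      < ((A' n).card : ℝ) := by
    intro n
    have h := hbig n
    have e : (A' n).card = (@Finset.filter (Finset V)
        (fun ω => ∃ H, T.IsLoop (colF ω) (s n) (ℓ n) H) (fun ω => Classical.propDecidable _)
        (Λ n).powerset).card := by
      congr 1
    rw [e]
    exact h
  set H' : ℕ → Finset V → Finset V := fun n ω =>
    if h : ∃ H, T.IsLoop (colF ω) (s n) (ℓ n) H then h.choose else ∅ with hH'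
  have hS : LSeq T s ℓ Λ A' H' := by
    refine ⟨fun n => Finset.filter_subset _ _, ?_, ?_, hΛ, ?_, ?_⟩
    · intro n
      rw [← Finset.card_pos]
      have h := hbig' n
      have h0 : (0 : ℝ) < Real.exp (-((1 / ((n : ℝ) + 1)) * ℓ n)) * 2 ^ (Λ n).card := by positivity
      have h2 : (0 : ℝ) < ((A' n).card : ℝ) := h0.trans h
      exact_mod_cast h2
    · intro n ω hω
      have h : ∃ H, T.IsLoop (colF ω) (s n) (ℓ n) H := (Finset.mem_filter.1 hω).2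
      simp only [hH']
      rw [dif_pos h]
      exact h.choose_spec
    · exact tendsto_atTop_mono hℓ tendsto_id
    · intro ε hε
      obtain ⟨n₀, hn₀⟩ := exists_nat_one_div_lt hε
      filter_upwards [eventually_ge_atTop n₀] with n hn
      refine le_trans ?_ (hbig' n).le
      refine mul_le_mul_of_nonneg_right ?_ (by positivity)
      apply Real.exp_le_exp.2
      have h1 : 1 / ((n : ℝ) + 1) ≤ 1 / ((n₀ : ℝ) + 1) := by
        apply one_div_le_one_div_of_le (by positivity)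
        have : (n₀ : ℝ) ≤ n := by exact_mod_cast hn
        linarith
      have h2 : 1 / ((n : ℝ) + 1) ≤ ε := h1.trans hn₀.le
      have h3 : (1 / ((n : ℝ) + 1)) * (ℓ n : ℝ) ≤ ε * ℓ n :=
        mul_le_mul_of_nonneg_right h2 (by positivity)
      linarith
  obtain ⟨μ, 𝒰, hμ, h𝒰, h𝒰', hl⟩ := hlim (Finset V × ℕ)
    (fun n => (A' n) ×ˢ Finset.range (ℓ n + 1))
    (fun n p => sam T θ s ℓ H' n p.1 p.2) (by
      intro n
      refine Finset.Nonempty.product (hS.ne n) ?_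
      exact ⟨0, by simp⟩)
  have hL : IsLim T θ s ℓ A' H' 𝒰 μ := by
    intro f hfc
    refine (hl f hfc).congr ?_
    intro n
    rw [Finset.sum_product, Finset.card_product, Finset.card_range]
    push_cast
    rfl
  have hhalf := half_of hv hg hs hf hd hm hc ho hx
  have hH1 : Half Δ K μ := hhalf D V T Δ K θ s ℓ Λ A' H' 𝒰 μ hP hΔ hθ hS h𝒰 h𝒰' hμ hL
  obtain ⟨hS', hL'⟩ := hms D V T Δ K θ s ℓ Λ A' H' 𝒰 μ hP hΔ hθ hS h𝒰 h𝒰' hμ hL
  have hμ' : IsProbabilityMeasure (Measure.map Mi μ) :=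
    Measure.isProbabilityMeasure_map hcont.1.measurable.aemeasurable
  have hH2 : Half Δ K (Measure.map Mi μ) :=
    hhalf D V T.mirror Δ K θ s ℓ Λ A' H' 𝒰 _ (hmp D V T hP) hΔ hθ.mirror hS' h𝒰 h𝒰' hμ' hL'
  exact hn Δ K μ hμ hH1 hH2

end Pool.Agent.BS.H47
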