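import Pool.Agent.Helper47_BS.Stmts

/-! # BS squad: module HFLIP -/

set_option autoImplicit false

namespace Pool.Agent.BS.H47

open Function Filter MeasureTheory Topology Pool.Agent.BS
open scoped BoundedContinuousFunction

/-- a counting of the words -/
noncomputable def num : Gam → ℕ := (exists_injective_nat Gam).choose

theorem num_inj : Injective num := (exists_injective_nat Gam).choose_spec

/-- the first words -/
noncomputable def firstW (j : ℕ) : Finset Gam :=
  (Set.Finite.preimage (num_inj.injOn) (Set.finite_Iio j)).toFinset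

theorem mem_firstW (j : ℕ) (g : Gam) : g ∈ firstW j ↔ num g < j := by
  simp [firstW]

/-- truncation -/
noncomputable def trun (j : ℕ) (X : Cod) : Cod := fun k g => if num g < j then X k g else false

theorem continuous_trun (j : ℕ) : Continuous (trun j) := by
  refine continuous_pi fun k => continuous_pi fun g => ?_
  unfold trun
  by_cases h : num g < j
  · simp only [h, if_true]
    exact continuous_bit k g
  · simp only [h, if_false]
    exact continuous_const

theorem tendsto_trun (X : Cod) : Tendsto (fun j => trun j X) atTop (𝓝 X) := by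
  rw [tendsto_pi_nhds]
  intro k
  rw [tendsto_pi_nhds]
  intro g
  refine tendsto_const_nhds.congr' ?_
  filter_upwards [eventually_gt_atTop (num g)] with j hj
  simp [trun, hj]

theorem local_trun (j : ℕ) (f : Cod → ℝ) : LocalP (firstW j) (fun X => f (PrP (trun j X))) := by
  intro X Y h
  have : PrP (trun j X) = PrP (trun j Y) := by
    funext k g
    by_cases hg : num g < j
    · have h2 := h g ((mem_firstW j g).2 hg)
      cases k with
      | col => simp only [PrP, trun, hg, if_true]; exact h2.1
      | past => simp only [PrP, trun, hg, if_true]; exact h2.2.1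
      | eq => simp only [PrP, trun, hg, if_true]; exact h2.2.2.1
      | th z => simp only [PrP, trun, hg, if_true]; exact h2.2.2.2 z
      | fut => rfl
      | beta m => rfl
    · cases k <;> simp only [PrP, trun, hg, if_false]
  simp only [this]

theorem hFlip (hfin : FlipFinStmt) (hcont : ContStmt) : HFlipStmt := by
  intro D V T Δ K θ s ℓ Λ A' H 𝒰 μ hP hΔ hθ hS h𝒰 h𝒰' hμ hL S
  have hFl : Continuous (FlP Δ S) := hcont.2.2.2.2.1 Δ S
  have hPr : Continuous PrP := hcont.2.2.2.1
  -- local functions
  have key : ∀ (Q : Finset Gam) (f : Cod → ℝ), Continuous f → LocalP Q f → (∀ X, |f X| ≤ 1) →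
      ∫ X, f (FlP Δ S X) ∂μ = ∫ X, f X ∂μ := by
    intro Q f hf hloc hb
    obtain ⟨M, R, hMR⟩ := hfin Δ S Q
    have hfc : Continuous (fun X => f (FlP Δ S X)) := hf.comp hFl
    have hint : ∀ g : Cod → ℝ, Continuous g → Integrable g μ := by
      intro g hg
      exact hg.integrable_of_hasCompactSupport (HasCompactSupport.of_compactSpace g)
    have h1 := hL (fun X => f (FlP Δ S X) - f X) (hfc.sub hf)
    rw [integral_sub (hint _ hfc) (hint _ hf)] at h1
    have hz : ∀ δ : ℝ, 0 < δ → |∫ X, f (FlP Δ S X) ∂μ - ∫ X, f X ∂μ| ≤ M * δ := by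
      intro δ hδ
      have h2 : ∀ᶠ n in atTop, |(∑ ω ∈ A' n, ∑ k ∈ Finset.range (ℓ n + 1),
          (f (FlP Δ S (sam T θ s ℓ H n ω k)) - f (sam T θ s ℓ H n ω k)))
            / ((A' n).card * (ℓ n + 1))| ≤ M * δ + 2 / ((ℓ n : ℝ) + 1) := by
        filter_upwards [hS.big (δ ^ 2) (by positivity), hS.lim.eventually_ge_atTop R] with n hn hR
        have h3 := hMR D V T θ hΔ (s n) (ℓ n) (Λ n) (A' n)
          (fun ω m => T.hull (H n ω : Set V) m) δ f hR (hS.reach n) (hS.sub n) (hS.ne n)
          (fun ω hω => ⟨_, hS.loop n ω hω⟩) hδ hn hloc hb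
        have hA : (0 : ℝ) < (A' n).card := by exact_mod_cast (hS.ne n).card_pos
        have hl : (0 : ℝ) < (ℓ n : ℝ) + 1 := by positivity
        rw [abs_div, abs_of_pos (mul_pos hA hl), div_le_iff₀ (mul_pos hA hl)]
        refine le_trans h3 (le_of_eq ?_)
        field_simp
      have h4 : Tendsto (fun n => M * δ + 2 / ((ℓ n : ℝ) + 1)) atTop (𝓝 (M * δ + 0)) := by
        refine tendsto_const_nhds.add ?_
        refine Tendsto.div_atTop tendsto_const_nhds ?_
        exact tendsto_atTop_add_const_right _ _ (tendsto_natCast_atTop_atTop.comp hS.lim)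
      rw [add_zero] at h4
      exact le_of_tendsto_of_tendsto h1.abs (h4.mono_left h𝒰') (h𝒰' h2)
    have h5 : |∫ X, f (FlP Δ S X) ∂μ - ∫ X, f X ∂μ| ≤ 0 := by
      refine le_of_forall_pos_le_add fun ε hε => ?_
      rw [zero_add]
      refine le_trans (hz (ε / (M + 1)) (by positivity)) ?_
      rw [mul_div_assoc']
      rw [div_le_iff₀ (by positivity)]
      nlinarith
    have h6 := abs_nonpos_iff.1 h5
    linarith
  have hcm : Measurable (fun X => PrP (FlP Δ S X)) := (hPr.comp hFl).measurable
  have : IsProbabilityMeasure (Measure.map (fun X => PrP (FlP Δ S X)) μ) :=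
    Measure.isProbabilityMeasure_map hcm.aemeasurable
  have : IsProbabilityMeasure (Measure.map PrP μ) :=
    Measure.isProbabilityMeasure_map hPr.measurable.aemeasurable
  refine ext_of_forall_integral_eq_of_IsFiniteMeasure ?_
  intro f
  rw [integral_map hcm.aemeasurable f.continuous.aestronglyMeasurable,
    integral_map hPr.measurable.aemeasurable f.continuous.aestronglyMeasurable]
  -- truncated versions
  have hj : ∀ j : ℕ, ∫ X, f (PrP (trun j (FlP Δ S X))) ∂μ = ∫ X, f (PrP (trun j X)) ∂μ := by
    intro j
    set C : ℝ := ‖f‖ + 1 with hC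
    have hC0 : 0 < C := by positivity
    have hfj : Continuous (fun X : Cod => f (PrP (trun j X)) / C) :=
      (f.continuous.comp (hPr.comp (continuous_trun j))).div_const C
    have h := key (firstW j) (fun X => f (PrP (trun j X)) / C) hfj (by
        have h := local_trun j (fun X => f X)
        intro X Y hXY
        have := h X Y hXY
        simp only at this ⊢
        rw [this]) (by
        intro X
        rw [abs_div, abs_of_pos hC0, div_le_one hC0]
        have := f.norm_coe_le_norm (PrP (trun j X))
        rw [Real.norm_eq_abs] at this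
        linarith)
    rw [integral_div, integral_div] at h
    exact (div_left_inj' hC0.ne').1 h
  have ht1 : Tendsto (fun j => ∫ X, f (PrP (trun j (FlP Δ S X))) ∂μ) atTop
      (𝓝 (∫ X, f (PrP (FlP Δ S X)) ∂μ)) := by
    refine tendsto_integral_of_dominated_convergence (fun _ => ‖f‖) ?_ ?_ ?_ ?_
    · intro j
      exact (f.continuous.comp (hPr.comp ((continuous_trun j).comp hFl))).aestronglyMeasurable
    · exact integrable_const _
    · intro j
      exact Eventually.of_forall fun X => f.norm_coe_le_norm _
    · refine Eventually.of_forall fun X => ?_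
      exact ((f.continuous.comp hPr).tendsto _).comp (tendsto_trun _)
  have ht2 : Tendsto (fun j => ∫ X, f (PrP (trun j X)) ∂μ) atTop
      (𝓝 (∫ X, f (PrP X) ∂μ)) := by
    refine tendsto_integral_of_dominated_convergence (fun _ => ‖f‖) ?_ ?_ ?_ ?_
    · intro j
      exact (f.continuous.comp (hPr.comp (continuous_trun j))).aestronglyMeasurable
    · exact integrable_const _
    · intro j
      exact Eventually.of_forall fun X => f.norm_coe_le_norm _
    · refine Eventually.of_forall fun X => ?_
      exact ((f.continuous.comp hPr).tendsto _).comp (tendsto_trun _)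
  refine tendsto_nhds_unique ht1 ?_
  refine ht2.congr fun j => (hj j).symm

end Pool.Agent.BS.H47
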