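import Pool.Agent.Helper47_BS.Stmts

/-! # BS squad: module MIRSEQ -/

set_option autoImplicit false

namespace Pool.Agent.BS.H47

open Function Filter MeasureTheory Topology Pool.Agent.BS

theorem pv_iter_nx_iter {D V : Type} (T : TMap D V) {c : V → Bool} {x : D} (hx : T.State c x)
    (j : ℕ) : (T.pv c)^[j] ((T.nx c)^[j] x) = x := by
  induction j with
  | zero => rfl
  | succ j ih =>
    rw [Function.iterate_succ_apply, Function.iterate_succ_apply' (T.nx c),
      (hx.iterate_nx j).pv_nx, ih]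

theorem pv_iter_loop {D V : Type} (T : TMap D V) {c : V → Bool} {s : D} (hs : T.State c s) {ℓ : ℕ}
    (hℓ : (T.nx c)^[ℓ] s = s) {j : ℕ} (hj : j ≤ ℓ) : (T.pv c)^[j] s = (T.nx c)^[ℓ - j] s := by
  conv_lhs => rw [← hℓ]
  have e : ℓ = j + (ℓ - j) := by omega
  rw [e, Function.iterate_add_apply, pv_iter_nx_iter T (hs.iterate_nx _)]
  congr 2

theorem smp_mirror {D V : Type} (T : TMap D V) {c : V → Bool} {s : D} (hs : T.State c s) {ℓ : ℕ}
    (hℓ : (T.nx c)^[ℓ] s = s) (B : ℕ → Set V) {k : ℕ} (hk : k ≤ ℓ) :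
    T.mirror.smp c B s ℓ k = (T.smp c B s ℓ (ℓ - k)).mir := by
  have h := fun {j : ℕ} (hj : j ≤ ℓ) => pv_iter_loop T hs hℓ hj
  unfold TMap.smp Env.mir
  simp only [TMap.mirror_nx]
  congr 1
  · ext d
    constructor
    · rintro ⟨j, hj, rfl⟩
      exact ⟨ℓ - j, by omega, by omega, (h (by omega)).symm⟩
    · rintro ⟨j, hj1, hj2, rfl⟩
      refine ⟨ℓ - j, by omega, ?_⟩
      rw [h (by omega)]
      congr 2
      omega
  · ext d
    constructor
    · rintro ⟨j, hj1, hj2, rfl⟩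
      exact ⟨ℓ - j, by omega, (h hj2).symm⟩
    · rintro ⟨j, hj, rfl⟩
      refine ⟨ℓ - j, by omega, by omega, ?_⟩
      rw [h (by omega)]
      congr 2
      omega
  · exact h hk

theorem mirSeq (hloop : LoopStmt) (hcode : CodeStmt) (hcont : ContStmt) : MirSeqStmt := by
  intro D V T Δ K θ s ℓ Λ A' H 𝒰 μ hP hΔ hθ hS _ _ hμ hL
  refine ⟨⟨hS.sub, hS.ne, ?_, ?_, hS.lim, hS.big⟩, ?_⟩
  · intro n ω hω
    exact (hloop D V T Δ K θ _ _ _ _ hP hΔ hθ (hS.loop n ω hω)).2.2.2.2
  · intro n d hd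
    rw [TMap.mirror_ball] at hd
    exact hS.reach n d hd
  · intro f hf
    have h1 := hL (fun X => f (Mi X)) (hf.comp hcont.1)
    have h2 : ∫ X, f X ∂(Measure.map Mi μ) = ∫ X, f (Mi X) ∂μ :=
      integral_map hcont.1.measurable.aemeasurable hf.aestronglyMeasurable
    rw [h2]
    refine h1.congr ?_
    intro n
    congr 1
    refine Finset.sum_congr rfl fun ω hω => ?_
    rw [← Finset.sum_range_reflect]
    refine Finset.sum_congr rfl fun k hk => ?_
    have hk' : k ≤ ℓ n := by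
      have := Finset.mem_range.1 hk
      omega
    have hlo := hS.loop n ω hω
    congr 1
    unfold sam
    rw [(hcode D V T θ _).1]
    congr 1
    rw [TMap.mirror_hull]
    have h3 := smp_mirror T hlo.2.1 hlo.2.2.1 (fun m => T.hull (H n ω : Set V) m) (k := k) hk'
    rw [h3]
    congr 2

end Pool.Agent.BS.H47
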