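import Pool.Agent.Helper47_BS.StmtsT

/-! # BS squad: module TOPO -/

set_option autoImplicit false

namespace Pool.Agent.BS.H47

open Function Filter Topology Set Pool.Agent.BS

/-! ## the triangle relation for closed turn paths -/

section cnt

variable {D V : Type} (T : TMap D V)

theorem cnt_al (p : ℕ → D) (n : ℕ) (d : D) : T.cnt p n (T.al d) = - T.cnt p n d := by
  unfold TMap.cnt
  rw [← Finset.sum_neg_distrib]
  refine Finset.sum_congr rfl fun k _ => ?_
  rw [T.al_al]
  ring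

open Classical in
theorem cnt_tri (p : ℕ → D) (n : ℕ) (hp : T.IsTurn p n) (hc : p n = p 0) (d : D) :
    T.cnt p n d + T.cnt p n (T.al (T.rho d)) + T.cnt p n (T.al (T.lam d)) = 0 := by
  set e1 := d with he1
  set e2 := T.al (T.rho d) with he2
  set e3 := T.al (T.lam d) with he3
  -- lam e1 = al e3, lam e2 = al e1, lam e3 = al e2
  have l1 : T.lam e1 = T.al e3 := by rw [he3, T.al_al]
  have r1 : T.rho e1 = T.al e2 := by rw [he2, T.al_al]
  have l2 : T.lam e2 = T.al e1 := by
    rw [he2, TMap.rho_apply, T.al_al, Equiv.apply_symm_apply]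
  have l3 : T.lam e3 = T.al e2 := by
    have h := T.tri (T.al (T.lam.symm (T.al e1)))
    rw [T.al_al, Equiv.apply_symm_apply, T.al_al] at h
    -- h : lam (al (lam e1)) = al (lam.symm (al e1))
    rw [he3, h, ← r1, TMap.rho_apply]
  have r2 : T.rho e2 = T.al e3 := by
    rw [TMap.rho_apply]
    congr 1
    rw [Equiv.symm_apply_eq, l3]
  have r3 : T.rho e3 = T.al e1 := by
    rw [TMap.rho_apply]
    congr 1
    rw [Equiv.symm_apply_eq, l1]
  set In : D → ℤ := fun x => (if x = e1 then 1 else 0) + (if x = e2 then 1 else 0)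
    + (if x = e3 then 1 else 0) with hIn
  set Out : D → ℤ := fun x => (if x = T.al e1 then 1 else 0) + (if x = T.al e2 then 1 else 0)
    + (if x = T.al e3 then 1 else 0) with hOut
  have hl : ∀ x, Out (T.lam x) = In x := by
    intro x
    simp only [hIn, hOut]
    rw [← l1, ← l2, ← l3]
    simp only [EmbeddingLike.apply_eq_iff_eq]
    ring
  have hr : ∀ x, Out (T.rho x) = In x := by
    intro x
    simp only [hIn, hOut]
    rw [← r1, ← r2, ← r3]
    simp only [EmbeddingLike.apply_eq_iff_eq]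
    ring
  have hstep : ∀ k ∈ Finset.range n, In (p k) = Out (p (k + 1)) := by
    intro k hk
    rcases hp k (Finset.mem_range.1 hk) with h | h
    · rw [h, hl]
    · rw [h, hr]
  have hsum : T.cnt p n e1 + T.cnt p n e2 + T.cnt p n e3
      = ∑ k ∈ Finset.range n, (In (p k) - Out (p k)) := by
    unfold TMap.cnt
    rw [← Finset.sum_add_distrib, ← Finset.sum_add_distrib]
    refine Finset.sum_congr rfl fun k _ => ?_
    simp only [hIn, hOut]
    ring
  rw [hsum, Finset.sum_sub_distrib, Finset.sum_congr rfl hstep]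
  have h2 := Finset.sum_range_succ' (fun k => Out (p k)) n
  have h3 := Finset.sum_range_succ (fun k => Out (p k)) n
  rw [h3, hc] at h2
  linarith

theorem cnt_support (p : ℕ → D) (n : ℕ) : {d | T.cnt p n d ≠ 0}.Finite := by
  classical
  refine Set.Finite.subset
    (Finset.finite_toSet ((Finset.range n).image p ∪ (Finset.range n).image (fun k => T.al (p k)))) ?_
  intro d hd
  by_contra hcon
  apply hd
  unfold TMap.cnt
  refine Finset.sum_eq_zero fun k hk => ?_
  have h1 : p k ≠ d := by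
    rintro rfl
    exact hcon (by
      simp only [Finset.coe_union, Set.mem_union, Finset.mem_coe]
      exact Or.inl (Finset.mem_image_of_mem _ hk))
  have h2 : p k ≠ T.al d := by
    intro h
    exact hcon (by
      simp only [Finset.coe_union, Set.mem_union, Finset.mem_coe]
      refine Or.inr (Finset.mem_image.2 ⟨k, hk, ?_⟩)
      rw [h, T.al_al])
  simp [h1, h2]

end cnt

/-! ## the rotation system -/

section topo

variable {V : Type} {G : SimpleGraph V}

/-- an abstract system of oriented face triangles -/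
structure Tri (G : SimpleGraph V) (P : V → V → V → Prop) : Prop where
  adj : ∀ a b c, P a b c → G.Adj a b ∧ G.Adj b c ∧ G.Adj c a
  cyc : ∀ a b c, P a b c → P b c a
  ex : ∀ a b, G.Adj a b → ∃! c, P a b c

variable {P : V → V → V → Prop} (hP : Tri G P)

/-- darts -/
abbrev Dt (G : SimpleGraph V) := {p : V × V // G.Adj p.1 p.2}

/-- reversal -/
def rev (d : Dt G) : Dt G := ⟨(d.1.2, d.1.1), d.2.symm⟩

/-- third vertex -/
noncomputable def tv (d : Dt G) : V := (hP.ex d.1.1 d.1.2 d.2).choose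

theorem tv_spec (d : Dt G) : P d.1.1 d.1.2 (tv hP d) := (hP.ex d.1.1 d.1.2 d.2).choose_spec.1

theorem tv_eq (d : Dt G) {c : V} (h : P d.1.1 d.1.2 c) : tv hP d = c :=
  ((hP.ex d.1.1 d.1.2 d.2).choose_spec.2 c h).symm

/-- left turn -/
noncomputable def lamE : Equiv.Perm (Dt G) where
  toFun d := ⟨(d.1.1, tv hP d), (hP.adj _ _ _ (tv_spec hP d)).2.2.symm⟩
  invFun d := ⟨(d.1.1, tv hP (rev d)), (hP.adj _ _ _ (tv_spec hP (rev d))).2.1⟩
  left_inv := by
    intro d
    apply Subtype.ext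
    refine Prod.ext rfl ?_
    change tv hP _ = d.1.2
    apply tv_eq
    exact hP.cyc _ _ _ (hP.cyc _ _ _ (tv_spec hP d))
  right_inv := by
    intro d
    apply Subtype.ext
    refine Prod.ext rfl ?_
    change tv hP _ = d.1.2
    apply tv_eq
    exact hP.cyc _ _ _ (tv_spec hP (rev d))

/-- reversal as a permutation -/
def alE (G : SimpleGraph V) : Equiv.Perm (Dt G) where
  toFun := rev
  invFun := rev
  left_inv := fun _ => rfl
  right_inv := fun _ => rfl

theorem lamE_fst (d : Dt G) : (lamE hP d).1.1 = d.1.1 := rfl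
theorem lamE_snd (d : Dt G) : (lamE hP d).1.2 = tv hP d := rfl
theorem lamE_symm_fst (d : Dt G) : ((lamE hP).symm d).1.1 = d.1.1 := rfl

theorem lamE_pow_fst (n : ℕ) (d : Dt G) : ((lamE hP ^ n) d).1.1 = d.1.1 := by
  induction n with
  | zero => rfl
  | succ n ih => rw [pow_succ']; change ((lamE hP) ((lamE hP ^ n) d)).1.1 = _; rw [lamE_fst, ih]

theorem fin_star (hloc : ∀ v, (G.neighborSet v).Finite) (v : V) :
    {d : Dt G | d.1.1 = v}.Finite := by
  refine Set.Finite.of_finite_image (f := fun d => d.1.2) ((hloc v).subset ?_) ?_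
  · rintro w ⟨d, hd, rfl⟩
    have hd' : d.1.1 = v := hd
    have := d.2
    rw [hd'] at this
    exact this
  · intro d hd e he hde
    have hd' : d.1.1 = v := hd
    have he' : e.1.1 = v := he
    apply Subtype.ext
    exact Prod.ext (hd'.trans he'.symm) hde

/-- the orbits are periodic -/
theorem lamE_periodic (hloc : ∀ v, (G.neighborSet v).Finite) (d : Dt G) :
    ∃ n : ℕ, 0 < n ∧ (lamE hP ^ n) d = d := by
  have hfin := fin_star hloc d.1.1
  have hmaps : ∀ n : ℕ, (lamE hP ^ n) d ∈ {e : Dt G | e.1.1 = d.1.1} := fun n =>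
    lamE_pow_fst hP n d
  have h : ¬ Injective (fun n : ℕ => (lamE hP ^ n) d) := by
    intro hinj
    exact Set.infinite_range_of_injective hinj (hfin.subset (by rintro _ ⟨n, rfl⟩; exact hmaps n))
  rw [Function.not_injective_iff] at h
  obtain ⟨i, j, hij, hne⟩ := h
  have key : ∀ i j : ℕ, i < j → (lamE hP ^ i) d = (lamE hP ^ j) d →
      ∃ n : ℕ, 0 < n ∧ (lamE hP ^ n) d = d := by
    intro i j hlt h
    refine ⟨j - i, by omega, ?_⟩
    have e : lamE hP ^ j = lamE hP ^ i * lamE hP ^ (j - i) := by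
      rw [← pow_add]; congr 1; omega
    rw [e, Equiv.Perm.mul_apply] at h
    exact ((lamE hP ^ i).injective h).symm
  rcases lt_or_gt_of_ne hne with h | h
  · exact key i j h hij
  · exact key j i h hij.symm

theorem exists_nbr (hconn : G.Connected) (hinf : Infinite V) (v : V) : ∃ w, G.Adj v w := by
  obtain ⟨u, hu⟩ := exists_ne v
  obtain ⟨p⟩ := hconn.preconnected v u
  cases p with
  | nil => exact absurd rfl hu
  | cons h _ => exact ⟨_, h⟩

/-- the property of the drawing giving cyclicity -/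
def Comb1 (G : SimpleGraph V) (P : V → V → V → Prop) : Prop :=
  ∀ c : V → V → ℤ, (∀ a b, G.Adj a b → c b a = - c a b) →
      (∀ a b d, P a b d → c a b + c b d + c d a = 0) →
      ∃ χ : V → ℤ, ∀ a b, G.Adj a b → c a b = χ a - χ b

/-- the property of the drawing giving cyclicity -/
def Comb3 (G : SimpleGraph V) : Prop :=
  ∀ (a : V) (χ : V → ℤ), (∀ b d, G.Adj b d → b ≠ a → d ≠ a → χ b = χ d) →
      ∀ b d, b ≠ a → d ≠ a → χ b = χ d

open Classical in
theorem cycE (hloc : ∀ v, (G.neighborSet v).Finite) (h1 : Comb1 G P) (h3 : Comb3 G)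
    (d d' : Dt G) (hdd : d.1.1 = d'.1.1) : ∃ n : ℕ, (lamE hP ^ n) d = d' := by
  set O : Set (Dt G) := {e | ∃ n : ℕ, (lamE hP ^ n) d = e} with hO
  have hOl : ∀ e, lamE hP e ∈ O ↔ e ∈ O := by
    intro e
    constructor
    · rintro ⟨n, hn⟩
      obtain ⟨m, hm, hmd⟩ := lamE_periodic hP hloc d
      cases n with
      | zero =>
        refine ⟨m - 1, ?_⟩
        apply (lamE hP).injective
        rw [← Equiv.Perm.mul_apply, ← pow_succ', Nat.sub_add_cancel hm, hmd, ← hn]
        rfl
      | succ n =>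
        refine ⟨n, ?_⟩
        rw [pow_succ', Equiv.Perm.mul_apply] at hn
        exact (lamE hP).injective hn
    · rintro ⟨n, hn⟩
      refine ⟨n + 1, ?_⟩
      rw [pow_succ', Equiv.Perm.mul_apply, hn]
  have hOf : ∀ e ∈ O, e.1.1 = d.1.1 := by
    rintro e ⟨n, rfl⟩
    exact lamE_pow_fst hP n d
  set I : V → V → ℤ := fun x y => if ∃ h : G.Adj x y, (⟨(x, y), h⟩ : Dt G) ∈ O then 1 else 0 with hI
  have hIl : ∀ x y z, P x y z → I x z = I x y := by
    intro x y z hxyz
    have hxy := (hP.adj _ _ _ hxyz).1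
    have hxz := (hP.adj _ _ _ hxyz).2.2.symm
    have e : lamE hP ⟨(x, y), hxy⟩ = ⟨(x, z), hxz⟩ := by
      apply Subtype.ext
      refine Prod.ext rfl ?_
      exact tv_eq hP ⟨(x, y), hxy⟩ hxyz
    have h := hOl ⟨(x, y), hxy⟩
    rw [e] at h
    simp only [hI]
    congr 1
    apply propext
    constructor
    · rintro ⟨h', h2⟩; exact ⟨hxy, h.1 h2⟩
    · rintro ⟨h', h2⟩; exact ⟨hxz, h.2 h2⟩
  obtain ⟨χ, hχ⟩ := h1 (fun x y => I x y - I y x) (by
      intro a b _
      ring) (by
      intro a b c habc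
      have e1 := hIl _ _ _ habc
      have e2 := hIl _ _ _ (hP.cyc _ _ _ habc)
      have e3 := hIl _ _ _ (hP.cyc _ _ _ (hP.cyc _ _ _ habc))
      linarith)
  have hI0 : ∀ x y, x ≠ d.1.1 → I x y = 0 := by
    intro x y hx
    simp only [hI]
    rw [if_neg]
    rintro ⟨h, h2⟩
    exact hx (hOf _ h2)
  have hconst := h3 d.1.1 χ (by
    intro b e hbe hb he
    have := hχ b e hbe
    rw [hI0 b e hb, hI0 e b he] at this
    linarith)
  have hd : χ d.1.1 - χ d.1.2 = 1 := by
    rw [← hχ _ _ d.2]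
    rw [hI0 d.1.2 d.1.1 d.2.ne']
    simp only [hI]
    rw [if_pos ⟨d.2, 0, rfl⟩]
    ring
  have hd' : χ d'.1.1 - χ d'.1.2 = 1 := by
    rw [← hdd, ← hd]
    congr 1
    refine hconst _ _ ?_ d.2.ne'
    rw [hdd]
    exact d'.2.ne'
  have h4 := hχ _ _ d'.2
  rw [hd', hI0 d'.1.2 d'.1.1 (by rw [hdd]; exact d'.2.ne')] at h4
  simp only [hI] at h4
  by_contra hcon
  rw [if_neg] at h4
  · norm_num at h4
  · rintro ⟨h, n, hn⟩
    exact hcon ⟨n, hn⟩

theorem connE (hconn : G.Connected)
    (hcyc : ∀ d d' : Dt G, d.1.1 = d'.1.1 → ∃ n : ℕ, (lamE hP ^ n) d = d') (d d' : Dt G) :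
    ∃ g : FreeGroup Bool,
      FreeGroup.lift (fun b : Bool => if b then alE G else lamE hP) g d = d' := by
  set ρ := FreeGroup.lift (fun b : Bool => if b then alE G else lamE hP) with hρ
  have hL : ∀ n : ℕ, ρ (L ^ n) = lamE hP ^ n := by
    intro n
    rw [map_pow]
    simp [hρ, L]
  have hA : ρ A = alE G := by simp [hρ, A]
  -- all darts at the vertex of a reachable dart are reachable
  have h1 : ∀ e e' : Dt G, e.1.1 = e'.1.1 → (∃ g, ρ g d = e) → ∃ g, ρ g d = e' := by
    rintro e e' hee ⟨g, hg⟩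
    obtain ⟨n, hn⟩ := hcyc e e' hee
    refine ⟨L ^ n * g, ?_⟩
    rw [map_mul, Equiv.Perm.mul_apply, hg, hL, hn]
  have h2 : ∀ v w : V, G.Walk v w → (∃ e : Dt G, e.1.1 = v ∧ ∃ g, ρ g d = e) →
      ∃ e : Dt G, e.1.1 = w ∧ ∃ g, ρ g d = e := by
    intro v w p
    induction p with
    | nil => exact id
    | @cons u v w huv _ ih =>
      rintro ⟨e, he, hg⟩
      apply ih
      obtain ⟨g, hg⟩ := h1 e ⟨(u, v), huv⟩ he hg
      refine ⟨⟨(v, u), huv.symm⟩, rfl, A * g, ?_⟩
      rw [map_mul, Equiv.Perm.mul_apply, hg, hA]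
      rfl
  obtain ⟨p⟩ := hconn.preconnected d.1.1 d'.1.1
  obtain ⟨e, he, hg⟩ := h2 _ _ p ⟨d, rfl, 1, by rw [map_one]; rfl⟩
  exact h1 e d' he hg

/-- the rotation system -/
noncomputable def mapE (hloc : ∀ v, (G.neighborSet v).Finite) (hconn : G.Connected)
    (hinf : Infinite V) (h1 : Comb1 G P) (h3 : Comb3 G) : TMap (Dt G) V where
  lam := lamE hP
  al := alE G
  lf := fun d => d.1.1
  star := fun v => (fin_star hloc v).toFinset
  mem_star := by
    intro v d
    simp
  star_ne := by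
    intro v
    obtain ⟨w, hw⟩ := exists_nbr hconn hinf v
    exact ⟨⟨(v, w), hw⟩, by simp⟩
  lf_lam := fun d => rfl
  cyc := fun d d' h => cycE hP hloc h1 h3 d d' h
  al_al := fun d => rfl
  tri := by
    intro d
    have hx := tv_spec hP (rev d)
    have e1 : lamE hP (alE G d) = ⟨(d.1.2, tv hP (rev d)), (hP.adj _ _ _ hx).2.2.symm⟩ := rfl
    have hx2 := hP.cyc _ _ _ hx
    have hx3 := hP.cyc _ _ _ hx2
    have e2 : lamE hP (alE G ⟨(d.1.2, tv hP (rev d)), (hP.adj _ _ _ hx).2.2.symm⟩)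
        = ⟨(tv hP (rev d), d.1.1), (hP.adj _ _ _ hx).2.1.symm⟩ := by
      apply Subtype.ext
      refine Prod.ext rfl ?_
      exact tv_eq hP ⟨(tv hP (rev d), d.1.2), _⟩ hx3
    have e3 : lamE hP (alE G ⟨(tv hP (rev d), d.1.1), (hP.adj _ _ _ hx).2.1.symm⟩) = d := by
      apply Subtype.ext
      refine Prod.ext rfl ?_
      exact tv_eq hP ⟨(d.1.1, tv hP (rev d)), _⟩ hx2
    rw [e1, e2, e3]
  no_loop := fun d => d.2.ne'
  simple := by
    intro d d' h h'
    apply Subtype.ext
    exact Prod.ext h h'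
  conn := connE hP hconn (fun d d' h => cycE hP hloc h1 h3 d d' h)

end topo

theorem topo (hPF : PFStmt) (hC : CombStmt) : TopoStmt := by
  intro V G φ γ ctx
  obtain ⟨hc1, hc2, hc3⟩ := hC V G φ γ ctx
  obtain ⟨hp1, hp2, -⟩ := hPF V G φ γ ctx
  have hP : Tri G (PF G φ γ) :=
    ⟨fun a b c h => ⟨h.1, h.2.1, h.2.2.1⟩, hp1, hp2⟩
  set T := mapE hP ctx.locfin ctx.conn ctx.inf hc1 hc3 with hT
  refine ⟨T, ?_, fun d => rfl, fun d => rfl⟩
  intro p n hp hc
  classical
  set c : V → V → ℤ := fun a b => if h : G.Adj a b then T.cnt p n ⟨(a, b), h⟩ else 0 with hcdef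
  obtain ⟨χ, hχ⟩ := hc1 c (by
      intro a b hab
      simp only [hcdef]
      rw [dif_pos hab, dif_pos hab.symm]
      exact cnt_al T p n ⟨(a, b), hab⟩) (by
      intro a b d habd
      have hab := habd.1
      have hbd := habd.2.1
      have hda := habd.2.2.1
      simp only [hcdef]
      rw [dif_pos hab, dif_pos hbd, dif_pos hda]
      have h := cnt_tri T p n hp hc ⟨(a, b), hab⟩
      have htv : tv hP ⟨(a, b), hab⟩ = d := tv_eq hP ⟨(a, b), hab⟩ habd
      have e3 : T.al (T.lam ⟨(a, b), hab⟩) = ⟨(d, a), hda⟩ := by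
        apply Subtype.ext
        refine Prod.ext ?_ rfl
        exact htv
      have e2 : T.al (T.rho ⟨(a, b), hab⟩) = ⟨(b, d), hbd⟩ := by
        rw [TMap.rho_apply, T.al_al, Equiv.symm_apply_eq]
        apply Subtype.ext
        refine Prod.ext rfl ?_
        exact (tv_eq hP ⟨(b, d), hbd⟩ (hP.cyc _ _ _ habd)).symm
      rw [e2, e3] at h
      exact h)
  obtain ⟨k, hk⟩ := hc2 χ (by
    refine Set.Finite.subset ((cnt_support T p n).image (fun d : Dt G => d.1)) ?_
    rintro ⟨a, b⟩ ⟨hab, hne⟩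
    refine ⟨⟨(a, b), hab⟩, ?_, rfl⟩
    intro h0
    apply hne
    have := hχ a b hab
    simp only [hcdef] at this
    rw [dif_pos hab, h0] at this
    simp only
    linarith)
  refine ⟨fun v => χ v - k, ?_, ?_⟩
  · refine hk.subset ?_
    intro v hv
    have hv' : χ v - k ≠ 0 := hv
    intro h
    exact hv' (by linarith)
  · intro d
    have h := hχ d.1.1 d.1.2 d.2
    simp only [hcdef] at h
    rw [dif_pos d.2] at h
    change T.cnt p n d = (χ d.1.1 - k) - (χ d.1.2 - k)
    rw [h]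
    ring

end Pool.Agent.BS.H47
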