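import Pool.Agent.Helper47_BS.Stmts

/-! # BS squad: module TYPM -/

set_option autoImplicit false

namespace Pool.Agent.BS.H47

open Function Filter MeasureTheory Topology Pool.Agent.BS

theorem meas_bit (k : Kd) (g : Gam) (b : Bool) : MeasurableSet {X : Cod | X k g = b} :=
  measurable_bit k g (measurableSet_singleton b)

theorem meas_prop_iff {p q : Cod → Prop} (hp : MeasurableSet {X | p X})
    (hq : MeasurableSet {X | q X}) : MeasurableSet {X | p X ↔ q X} := by
  have : {X | p X ↔ q X} = ({X | p X} ∩ {X | q X}) ∪ ({X | p X}ᶜ ∩ {X | q X}ᶜ) := by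
    ext X
    simp only [Set.mem_ofPred_eq, Set.mem_union, Set.mem_inter_iff, Set.mem_compl_iff]
    tauto
  rw [this]
  exact (hp.inter hq).union (hp.compl.inter hq.compl)

theorem meas_wf (n : ℕ) : ∀ g : Gam, MeasurableSet {X | wf X n = g} := by
  induction n with
  | zero =>
    intro g
    by_cases h : (1 : Gam) = g
    · have : {X | wf X 0 = g} = Set.univ := by ext X; simp [wf, h]
      rw [this]; exact MeasurableSet.univ
    · have : {X | wf X 0 = g} = ∅ := by ext X; simp [wf, h]
      rw [this]; exact MeasurableSet.empty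
  | succ n ih =>
    intro g
    have : {X | wf X (n + 1) = g} = ⋃ h : Gam, {X | wf X n = h} ∩
        {X | (if X .col (A * L * h) then A * L⁻¹ * A else L) * h = g} := by
      ext X
      simp only [wf, Set.mem_ofPred_eq, Set.mem_iUnion, Set.mem_inter_iff, exists_eq_left']
    rw [this]
    refine MeasurableSet.iUnion fun h => (ih h).inter ?_
    have hm : Measurable (fun b : Bool => decide (((if b then A * L⁻¹ * A else L) * h = g))) :=
      measurable_from_top
    have := (hm.comp (measurable_bit .col (A * L * h))) (measurableSet_singleton true)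
    convert! this using 1
    ext X
    simp

theorem meas_wb (n : ℕ) : ∀ g : Gam, MeasurableSet {X | wb X n = g} := by
  induction n with
  | zero =>
    intro g
    by_cases h : (1 : Gam) = g
    · have : {X | wb X 0 = g} = Set.univ := by ext X; simp [wb, h]
      rw [this]; exact MeasurableSet.univ
    · have : {X | wb X 0 = g} = ∅ := by ext X; simp [wb, h]
      rw [this]; exact MeasurableSet.empty
  | succ n ih =>
    intro g
    have : {X | wb X (n + 1) = g} = ⋃ h : Gam, {X | wb X n = h} ∩
        {X | (if X .col (A * L⁻¹ * h) then A * L * A else L⁻¹) * h = g} := by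
      ext X
      simp only [wb, Set.mem_ofPred_eq, Set.mem_iUnion, Set.mem_inter_iff, exists_eq_left']
    rw [this]
    refine MeasurableSet.iUnion fun h => (ih h).inter ?_
    have hm : Measurable (fun b : Bool => decide (((if b then A * L * A else L⁻¹) * h = g))) :=
      measurable_from_top
    have := (hm.comp (measurable_bit .col (A * L⁻¹ * h))) (measurableSet_singleton true)
    convert! this using 1
    ext X
    simp

theorem meas_wz (i : ℤ) (g : Gam) : MeasurableSet {X | wz X i = g} := by
  cases i with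
  | ofNat n => exact meas_wf n g
  | negSucc n => exact meas_wb (n + 1) g

/-- substituting a measurable word -/
theorem meas_sub {p : Gam → Cod → Prop} (hp : ∀ g, MeasurableSet {X | p g X}) (i : ℤ) :
    MeasurableSet {X | p (wz X i) X} := by
  have : {X | p (wz X i) X} = ⋃ g : Gam, {X | wz X i = g} ∩ {X | p g X} := by
    ext X
    simp only [Set.mem_ofPred_eq, Set.mem_iUnion, Set.mem_inter_iff, exists_eq_left']
  rw [this]
  exact MeasurableSet.iUnion fun g => (meas_wz i g).inter (hp g)

theorem meas_ex {ι : Type} [Countable ι] {p : ι → Cod → Prop} (hp : ∀ g, MeasurableSet {X | p g X}) :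
    MeasurableSet {X | ∃ g, p g X} := by
  have : {X | ∃ g, p g X} = ⋃ g, {X | p g X} := by ext X; simp
  rw [this]
  exact MeasurableSet.iUnion hp

theorem meas_all {ι : Type} [Countable ι] {p : ι → Cod → Prop} (hp : ∀ g, MeasurableSet {X | p g X}) :
    MeasurableSet {X | ∀ g, p g X} := by
  have : {X | ∀ g, p g X} = ⋂ g, {X | p g X} := by ext X; simp
  rw [this]
  exact MeasurableSet.iInter hp

theorem meas_and {p q : Cod → Prop} (hp : MeasurableSet {X | p X})
    (hq : MeasurableSet {X | q X}) : MeasurableSet {X | p X ∧ q X} := hp.inter hq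

theorem meas_not {p : Cod → Prop} (hp : MeasurableSet {X | p X}) : MeasurableSet {X | ¬ p X} :=
  hp.compl

theorem meas_imp {p q : Cod → Prop} (hp : MeasurableSet {X | p X})
    (hq : MeasurableSet {X | q X}) : MeasurableSet {X | p X → q X} := by
  have : {X | p X → q X} = {X | p X}ᶜ ∪ {X | q X} := by
    ext X
    simp only [Set.mem_ofPred_eq, Set.mem_union, Set.mem_compl_iff]
    tauto
  rw [this]
  exact hp.compl.union hq

theorem meas_const {q : Prop} {p : Cod → Prop} (hp : MeasurableSet {X | p X}) :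
    MeasurableSet {X | q → p X} := by
  by_cases h : q
  · simpa [h] using hp
  · simp [h]

theorem meas_cOld (g : Gam) : MeasurableSet {X | cOld X g} := by
  refine meas_and (meas_bit _ _ _) (meas_all fun j => ?_)
  exact meas_sub (p := fun h X => X .eq (g⁻¹ * h) = false) (fun h => meas_bit _ _ _) j

theorem meas_cSame (g h : Gam) : MeasurableSet {X | cSame X g h} :=
  meas_ex fun _ => meas_bit _ _ _

theorem meas_cLO (i : ℤ) : MeasurableSet {X | cLO X i} :=
  meas_ex fun g => meas_and (meas_cOld g)
    (meas_sub (p := fun h X => cSame X g h) (fun h => meas_cSame g h) i)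

theorem meas_cRO (i : ℤ) : MeasurableSet {X | cRO X i} :=
  meas_ex fun g => meas_and (meas_cOld g)
    (meas_sub (p := fun h X => cSame X (A * g) (A * h)) (fun h => meas_cSame _ _) i)

theorem measurable_thv (K : ℕ) (g : Gam) : Measurable (fun X => thv K X g) := by
  unfold thv
  refine Finset.measurable_fun_sum _ fun z _ => ?_
  exact Measurable.ite (measurable_bit (.th z) g (measurableSet_singleton true))
    measurable_const measurable_const

theorem measurable_thz (K : ℕ) (i : ℤ) : Measurable (fun X => thv K X (wz X i)) := by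
  intro S hS
  have h := meas_sub (p := fun g X => thv K X g ∈ S) (fun g => measurable_thv K g hS) i
  exact h

theorem meas_avg (K : ℕ) : MeasurableSet {X : Cod | ∃ a : ℝ,
    Tendsto (fun n : ℕ => (∑ k ∈ Finset.range n, thv K X (wz X (k : ℤ))) / n) atTop (𝓝 a) ∧
    Tendsto (fun n : ℕ => (∑ k ∈ Finset.range n, thv K X (wz X (-(k : ℤ)))) / n) atTop (𝓝 a)} := by
  have hF : ∀ n : ℕ, Measurable
      (fun X : Cod => (∑ k ∈ Finset.range n, thv K X (wz X (k : ℤ))) / n) := fun n =>
    (Finset.measurable_fun_sum _ fun k _ => measurable_thz K _).div_const _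
  have hB : ∀ n : ℕ, Measurable
      (fun X : Cod => (∑ k ∈ Finset.range n, thv K X (wz X (-(k : ℤ)))) / n) := fun n =>
    (Finset.measurable_fun_sum _ fun k _ => measurable_thz K _).div_const _
  have h1 := measurableSet_exists_tendsto (l := atTop) hF
  have h2 : MeasurableSet {X : Cod |
      Tendsto (fun n : ℕ => (∑ k ∈ Finset.range n, thv K X (wz X (k : ℤ))) / n
        - (∑ k ∈ Finset.range n, thv K X (wz X (-(k : ℤ)))) / n) atTop (𝓝 0)} :=
    measurableSet_tendsto _ (fun n => (hF n).sub (hB n))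
  convert! h1.inter h2 using 1
  ext X
  simp only [Set.mem_ofPred_eq, Set.mem_inter_iff]
  constructor
  · rintro ⟨a, ha, hb⟩
    refine ⟨⟨a, ha⟩, ?_⟩
    simpa using ha.sub hb
  · rintro ⟨⟨a, ha⟩, hb⟩
    refine ⟨a, ha, ?_⟩
    have := ha.sub hb
    simpa using this

theorem meas_cTyp (K : ℕ) : MeasurableSet {X | cTyp K X} := by
  have e : {X | cTyp K X} = {X : Cod | (X .col 1 = true ∧ X .col A = false) ∧
      (∀ i j : ℤ, i ≠ j → X .eq ((wz X i)⁻¹ * wz X j) = false) ∧
      (∀ i : ℤ, X .past (wz X i) = true ↔ i ≤ 0) ∧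
      (∃ a : ℝ,
        Tendsto (fun n : ℕ => (∑ k ∈ Finset.range n, thv K X (wz X (k : ℤ))) / n) atTop (𝓝 a) ∧
        Tendsto (fun n : ℕ => (∑ k ∈ Finset.range n, thv K X (wz X (-(k : ℤ)))) / n) atTop (𝓝 a)) ∧
      ((∀ i : ℤ, i ≤ 0 → ¬ cLO X i) → ∀ i : ℤ, ¬ cLO X i) ∧
      ((∀ i : ℤ, i ≤ 0 → ¬ cRO X i) → ∀ i : ℤ, ¬ cRO X i)} := by
    ext X
    constructor
    · intro h; exact ⟨h.state, h.inj, h.memP, h.avg, h.lo, h.ro⟩
    · rintro ⟨h1, h2, h3, h4, h5, h6⟩; exact ⟨h1, h2, h3, h4, h5, h6⟩
  rw [e]
  refine meas_and (meas_and (meas_bit _ _ _) (meas_bit _ _ _)) ?_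
  refine meas_and ?_ ?_
  · refine meas_all fun i => meas_all fun j => meas_const ?_
    exact meas_sub (p := fun g X => X .eq (g⁻¹ * wz X j) = false) (fun g =>
      meas_sub (p := fun h X => X .eq (g⁻¹ * h) = false) (fun h => meas_bit _ _ _) j) i
  refine meas_and ?_ ?_
  · refine meas_all fun i => ?_
    refine meas_prop_iff ?_ (MeasurableSet.const _)
    exact meas_sub (p := fun g X => X .past g = true) (fun g => meas_bit _ _ _) i
  refine meas_and (meas_avg K) ?_
  refine meas_and ?_ ?_
  · exact meas_imp (meas_all fun i => meas_const (meas_not (meas_cLO i)))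
      (meas_all fun i => meas_not (meas_cLO i))
  · exact meas_imp (meas_all fun i => meas_const (meas_not (meas_cRO i)))
      (meas_all fun i => meas_not (meas_cRO i))

theorem wf_PrP (X : Cod) (n : ℕ) : wf (PrP X) n = wf X n := by
  induction n with
  | zero => rfl
  | succ n ih => simp only [wf, ih]; rfl

theorem wb_PrP (X : Cod) (n : ℕ) : wb (PrP X) n = wb X n := by
  induction n with
  | zero => rfl
  | succ n ih => simp only [wb, ih]; rfl

theorem wz_PrP (X : Cod) (i : ℤ) : wz (PrP X) i = wz X i := by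
  cases i with
  | ofNat n => exact wf_PrP X n
  | negSucc n => exact wb_PrP X (n + 1)

theorem cOld_PrP (X : Cod) (g : Gam) : cOld (PrP X) g ↔ cOld X g := by
  unfold cOld
  simp only [wz_PrP]
  exact Iff.rfl

theorem cLO_PrP (X : Cod) (i : ℤ) : cLO (PrP X) i ↔ cLO X i := by
  unfold cLO
  simp only [wz_PrP, cOld_PrP]
  exact Iff.rfl

theorem cRO_PrP (X : Cod) (i : ℤ) : cRO (PrP X) i ↔ cRO X i := by
  unfold cRO
  simp only [wz_PrP, cOld_PrP]
  exact Iff.rfl

theorem thv_PrP (K : ℕ) (X : Cod) (g : Gam) : thv K (PrP X) g = thv K X g := rfl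

theorem cTyp_PrP (K : ℕ) (X : Cod) : cTyp K (PrP X) ↔ cTyp K X := by
  constructor
  · rintro ⟨h1, h2, h3, h4, h5, h6⟩
    simp only [wz_PrP, cLO_PrP, cRO_PrP, thv_PrP] at h2 h3 h4 h5 h6
    exact ⟨h1, h2, h3, h4, h5, h6⟩
  · rintro ⟨h1, h2, h3, h4, h5, h6⟩
    refine ⟨h1, ?_, ?_, ?_, ?_, ?_⟩
    · simp only [wz_PrP]; exact h2
    · simp only [wz_PrP]; exact h3
    · simp only [wz_PrP, thv_PrP]; exact h4
    · simp only [cLO_PrP]; exact h5
    · simp only [cRO_PrP]; exact h6

theorem typM : TypMeasStmt :=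
  ⟨meas_cTyp, meas_cLO, meas_cRO, meas_wz, cTyp_PrP⟩

end Pool.Agent.BS.H47
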