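import Pool.Agent.Helper47_BS.MainAsm
import Pool.Agent.Helper47_BS.EDAsm
import Pool.Agent.Helper47_BS.Topo
import Pool.Agent.Helper47_BS.MirSeq
import Pool.Agent.Helper47_BS.HFlip
import Pool.Agent.Helper47_BS.TypM
import Pool.Agent.Helper3_BS.Core
import Pool.Agent.Helper3_BS.NoLim
import Pool.Agent.Helper3_BS.FlipTyp
import Pool.Agent.Helper3_BS.Rec
import Pool.Agent.Helper3_BS.RNo
import Pool.Agent.Helper9_BS.Cross
import Pool.Agent.Helper9_BS.Drift
import Pool.Agent.Helper9_BS.Loop
import Pool.Agent.Helper9_BS.OE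
import Pool.Agent.Helper26_BS.HCross
import Pool.Agent.Helper26_BS.HDrift
import Pool.Agent.Helper26_BS.HGood
import Pool.Agent.Helper26_BS.HOld
import Pool.Agent.Helper26_BS.HShift
import Pool.Agent.Helper26_BS.HTool
import Pool.Agent.Helper26_BS.HValid
import Pool.Agent.Helper26_BS.Lim
import Pool.Agent.Helper35_BS.FACE
import Pool.Agent.Helper35_BS.PF
import Pool.Agent.Helper35_BS.STAR
import Pool.Agent.Helper35_BS.TWOFACE
import Pool.Agent.Helper45_BS.Erg
import Pool.Agent.Helper45_BS.Flow
import Pool.Agent.Helper45_BS.Hall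
import Pool.Agent.Helper60_BS.PerBelow
import Pool.Agent.Helper60_BS.PerDecay
import Pool.Agent.Helper60_BS.PerFin
import Pool.Agent.Helper60_BS.PerHalf
import Pool.Agent.Helper72_BS.CLOSED
import Pool.Agent.Helper72_BS.EXPM
import Pool.Agent.Helper72_BS.FLIPFIN
import Pool.Agent.Helper77_BS.ArcCompl
import Pool.Agent.Helper77_BS.ArcOp
import Pool.Agent.Helper77_BS.Borsuk
import Pool.Agent.Helper77_BS.Cech
import Pool.Agent.Helper77_BS.Log
import Pool.Agent.Helper85_BS.Comb
import Pool.Agent.Helper85_BS.Draw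
import Pool.Agent.Helper85_BS.Opp
import Pool.Agent.Helper91_BS.At
import Pool.Agent.Helper91_BS.Code
import Pool.Agent.Helper91_BS.Cont
import Pool.Agent.Helper91_BS.Typr
import Pool.Agent.Helper92_BS.Fill
import Pool.Agent.Helper92_BS.Nest
import Pool.Agent.Helper92_BS.Ray
import Pool.Agent.Helper92_BS.RayLoop
import Pool.Agent.Helper96_BS.Alt
import Pool.Agent.Helper96_BS.Cut
import Pool.Agent.Helper96_BS.Flux
import Pool.Agent.Helper96_BS.Mirp
import Pool.Agent.Helper96_BS.WinA
import Pool.Agent.Helper96_BS.WinB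
import Pool.Agent.Helper97_BS.DET1
import Pool.Agent.Helper97_BS.DET2
import Pool.Agent.Helper97_BS.DET3
import Pool.Agent.Helper97_BS.DET4

/-! # BS squad: everything put together, except the last topology modules -/

set_option autoImplicit false

namespace Pool.Agent.BS.H47

open Pool.Agent.BS

theorem det : DetStmt :=
  H97.det4 H97.det1 (H97.det2 H97.det1 H96.winA H96.inf) (H97.det3 H97.det1 H96.winB H96.inf)
    H9.oe H96.alt

theorem core' : CoreStmt :=
  H3.core H45.erg H96.cut det
    (H3.flipTyp (H3.typAe H45.erg H91.typr typM H91.at_ H91.code) typM H91.cont)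
    H91.typr H91.at_ H91.code H96.mirPlanar

theorem noLim' : NoLimStmt :=
  H3.noLim core' (H3.rNo H91.at_ H91.code H96.mirPlanar) (H3.lNo H91.typr typM H91.at_)
    H91.typr typM H91.at_ H91.code H96.mirPlanar

theorem ed : EDStmt :=
  edAsm H96.mirPlanar H91.cont H26.lim
    (mirSeq (H9.loop H96.fluxSet) H91.code H91.cont)
    (H26.hvalid (H72.closed H96.fluxSet H96.inf) H26.htool)
    (H26.hgood H91.typr)
    (H26.hshift H91.cont H91.code)
    (hFlip (H72.flipfin H91.code H72.expm) H91.cont)
    (H26.hdrift (H9.drift H96.fluxSet H96.inf H9.oe) H91.cont H91.code)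
    (H26.hmono H26.htool)
    (H26.hchange (H9.change H96.fluxSet H96.inf H9.oe) H91.cont H91.code)
    (H26.hold (H9.fold H9.oe H96.inf) H91.typr)
    (H26.hcross H9.fcross H91.typr)
    noLim'

theorem perBelow' : PerBelowStmt := by
  have hD := H60.perdecay ed
  have hF := H92.fill H9.oe
  have hRL := H92.rayloop hF (H92.nest hF) (H9.loop H96.fluxSet)
  exact H60.perbelow hD (H60.perhalf hD H60.persym H92.ray hRL H96.inf) H60.perfin H92.ray hRL H96.inf

theorem flow' : FlowStmt := H45.flow H45.hall

theorem topo' (hinc : IncStmt) (hwnd : WndStmt) (hjor : JordanStmt) : TopoStmt := by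
  have hdraw := H85.draw H77.arcOp (H77.arcCompl (H77.borsuk H77.log) H77.arcLog)
  have hface := H35.face_stmt hdraw hjor
  have htwo := H35.twoface hdraw hface hjor
  have hopp := H85.opp hdraw hface hinc hwnd hjor
  have hpf := H35.pf hdraw htwo hopp
  have hstar := H35.star_stmt hdraw hface hpf
  exact topo hpf (H85.comb hstar (H77.cech H77.log) hface)

end Pool.Agent.BS.H47
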