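import Pool.Agent.Helper47_BS.StmtsT
import Pool.Agent.Helper77_BS.ArcOp
import Pool.Agent.Helper77_BS.Log
import Pool.Agent.Helper77_BS.Cech
import Pool.Agent.Helper77_BS.Borsuk
import Pool.Agent.Helper77_BS.ArcCompl
import Pool.Agent.Helper35_BS.Tools

/-! # BS squad: modules INC, WND -/

set_option autoImplicit false

namespace Pool.Agent.BS.H47

open Function Filter Topology Set Pool.Agent.BS

theorem log_diff_const {K : Set ℂ} (hK : IsPreconnected K) {g g' : ℂ → ℂ} (hg : ContinuousOn g K)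
    (hg' : ContinuousOn g' K) (h : ∀ t ∈ K, Complex.exp (g t) = Complex.exp (g' t)) {x y : ℂ}
    (hx : x ∈ K) (hy : y ∈ K) : g y - g x = g' y - g' x := by
  have h2 : (2 * (Real.pi : ℂ) * Complex.I) ≠ 0 := Complex.two_pi_I_ne_zero
  obtain ⟨n, hn⟩ := H77.int_const hK (f := fun t => (g t - g' t) / (2 * Real.pi * Complex.I))
    ((hg.sub hg').div_const _) (by
      intro t ht
      obtain ⟨n, hn⟩ := Complex.exp_eq_exp_iff_exists_int.1 (h t ht)
      refine ⟨n, ?_⟩
      rw [hn]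
      field_simp
      ring)
  have e1 := hn x hx
  have e2 := hn y hy
  rw [div_eq_iff h2] at e1 e2
  have e3 : g x = g' x + n * (2 * Real.pi * Complex.I) := by rw [← e1]; ring
  have e4 : g y = g' y + n * (2 * Real.pi * Complex.I) := by rw [← e2]; ring
  rw [e3, e4]
  ring

theorem inc_spec {K : Set ℂ} {x y z : ℂ} (harc : IsArc K x y) (hz : z ∉ K) :
    IsInc K x y z (inc K x y z) := by
  have h : ∃ w, IsInc K x y z w := by
    obtain ⟨g, hg, hg2⟩ := H77.arcLog K x y harc (fun t => t - z)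
      (by fun_prop) (by
        intro t ht h0
        have : t = z := sub_eq_zero.1 h0
        exact hz (this ▸ ht))
    exact ⟨g y - g x, g, hg, hg2, rfl⟩
  unfold inc
  rw [dif_pos h]
  exact h.choose_spec

theorem inc_uniq {K : Set ℂ} {x y z : ℂ} (harc : IsArc K x y) (hz : z ∉ K) {w : ℂ}
    (hw : IsInc K x y z w) : w = inc K x y z := by
  obtain ⟨g, hg, hg2, hg3⟩ := hw
  obtain ⟨g', hg', hg2', hg3'⟩ := inc_spec harc hz
  obtain ⟨-, hc, hx, hy, -⟩ := H77.arc_basic harc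
  rw [← hg3, ← hg3']
  exact log_diff_const hc.isPreconnected hg hg' (fun t ht => (hg2 t ht).trans (hg2' t ht).symm) hx hy

theorem glue {K K' : Set ℂ} (hK : IsClosed K) (hK' : IsClosed K') {g g' : ℂ → ℂ}
    (hg : ContinuousOn g K) (hg' : ContinuousOn g' K') (h : ∀ t ∈ K, t ∈ K' → g t = g' t) :
    ∃ G : ℂ → ℂ, ContinuousOn G (K ∪ K') ∧ (∀ t ∈ K, G t = g t) ∧ ∀ t ∈ K', G t = g' t := by
  classical
  have h1 : ∀ t ∈ K, K.piecewise g g' t = g t := fun t ht => Set.piecewise_eq_of_mem _ _ _ ht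
  have h2 : ∀ t ∈ K', K.piecewise g g' t = g' t := by
    intro t ht
    by_cases htK : t ∈ K
    · rw [h1 t htK, h t htK ht]
    · exact Set.piecewise_eq_of_notMem _ _ _ htK
  refine ⟨K.piecewise g g', ?_, h1, h2⟩
  exact (hg.congr h1).union_of_isClosed (hg'.congr h2) hK hK'

theorem inc_add {K K' : Set ℂ} {x y w z : ℂ} (harc : IsArc K x y) (hz : z ∉ K)
    (harc' : IsArc K' y w) (hint : K ∩ K' = {y}) (hz' : z ∉ K') :
    inc (K ∪ K') x w z = inc K x y z + inc K' y w z := by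
  obtain ⟨g, hg, hg2, hg3⟩ := inc_spec harc hz
  obtain ⟨g', hg', hg2', hg3'⟩ := inc_spec harc' hz'
  obtain ⟨hcp, hc, hx, hy, -⟩ := H77.arc_basic harc
  obtain ⟨hcp', hc', hy', hw', -⟩ := H77.arc_basic harc'
  have harc2 : IsArc (K ∪ K') x w := H77.arc_cat harc harc' hint
  obtain ⟨G, hG, hG1, hG2⟩ := glue hcp.isClosed hcp'.isClosed hg
    (hg'.add (continuousOn_const (c := g y - g' y))) (by
      intro t ht ht'
      have : t ∈ K ∩ K' := ⟨ht, ht'⟩
      rw [hint] at this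
      rw [mem_singleton_iff.1 this]
      simp)
  symm
  apply inc_uniq harc2 (by rintro (h | h); exacts [hz h, hz' h])
  refine ⟨G, hG, ?_, ?_⟩
  · rintro t (ht | ht)
    · rw [hG1 t ht, hg2 t ht]
    · rw [hG2 t ht]
      simp only [Pi.add_apply]
      rw [Complex.exp_add, hg2' t ht]
      have : Complex.exp (g y - g' y) = 1 := by
        rw [Complex.exp_sub, hg2 y hy, hg2' y hy']
        apply div_self
        intro h0
        exact hz (sub_eq_zero.1 h0 ▸ hy)
      rw [this, mul_one]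
  · rw [hG2 w hw', hG1 x hx, ← hg3, ← hg3']
    simp only [Pi.add_apply]
    ring

theorem incS : IncStmt := by
  intro K x y harc z hz
  obtain ⟨hcp, hc, hx, hy, hxy⟩ := H77.arc_basic harc
  refine ⟨inc_spec harc hz, fun w hw => inc_uniq harc hz hw, ?_, ?_, ?_⟩
  · obtain ⟨g, hg, hg2, hg3⟩ := inc_spec harc hz
    symm
    apply inc_uniq (H77.arc_symm harc) hz
    refine ⟨g, hg, hg2, ?_⟩
    rw [← hg3]
    ring
  · obtain ⟨g, hg, hg2, hg3⟩ := inc_spec harc hz
    rw [← hg3, Complex.exp_sub, hg2 x hx, hg2 y hy]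
  · intro K' w harc' hint hz'
    exact inc_add harc hz harc' hint hz'

/-! ## winding numbers -/

theorem inc_shift {K : Set ℂ} {x y z z' : ℂ} (harc : IsArc K x y) (hz : z ∉ K) {δ : ℝ} (hδ : 0 < δ)
    (hδK : ∀ t ∈ K, δ ≤ ‖t - z‖) (hzz : ‖z - z'‖ < δ) :
    z' ∉ K ∧ inc K x y z' = inc K x y z + (Complex.log ((y - z') / (y - z))
      - Complex.log ((x - z') / (x - z))) := by
  have hz' : z' ∉ K := by
    intro h
    have := hδK z' h
    rw [norm_sub_rev] at this
    linarith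
  refine ⟨hz', ?_⟩
  obtain ⟨g, hg, hg2, hg3⟩ := inc_spec harc hz
  obtain ⟨hcp, hc, hx, hy, hxy⟩ := H77.arc_basic harc
  have hne : ∀ t ∈ K, t - z ≠ 0 := by
    intro t ht h0
    exact hz (sub_eq_zero.1 h0 ▸ ht)
  have hr : ∀ t ∈ K, (t - z') / (t - z) ∈ Complex.slitPlane := by
    intro t ht
    have e : (t - z') / (t - z) = 1 + (z - z') / (t - z) := by
      have := hne t ht
      field_simp
      ring
    rw [e]
    apply Complex.mem_slitPlane_of_norm_lt_one
    rw [norm_div, div_lt_one (norm_pos_iff.2 (hne t ht))]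
    exact lt_of_lt_of_le hzz (hδK t ht)
  symm
  apply inc_uniq harc hz'
  refine ⟨fun t => g t + Complex.log ((t - z') / (t - z)), ?_, ?_, ?_⟩
  · refine hg.add (ContinuousOn.clog ?_ hr)
    exact ContinuousOn.div (by fun_prop) (by fun_prop) hne
  · intro t ht
    rw [Complex.exp_add, hg2 t ht, Complex.exp_log (Complex.slitPlane_ne_zero (hr t ht))]
    have := hne t ht
    field_simp
  · simp only
    rw [← hg3]
    ring

theorem wndS : WndStmt := by
  intro K₁ K₂ x y hJ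
  obtain ⟨hcp₁, hc₁, hx₁, hy₁, hxy⟩ := H77.arc_basic hJ.arc₁
  obtain ⟨hcp₂, hc₂, hx₂, hy₂, -⟩ := H77.arc_basic hJ.arc₂
  have hcl : IsClosed (K₁ ∪ K₂) := hcp₁.isClosed.union hcp₂.isClosed
  have hcp : IsCompact (K₁ ∪ K₂) := hcp₁.union hcp₂
  have h2pi : (2 * (Real.pi : ℂ) * Complex.I) ≠ 0 := Complex.two_pi_I_ne_zero
  have hint : ∀ z ∉ K₁ ∪ K₂, ∃ n : ℤ, wnd K₁ K₂ x y z = n * (2 * Real.pi * Complex.I) := by
    intro z hz
    have hz₁ : z ∉ K₁ := fun h => hz (Or.inl h)
    have hz₂ : z ∉ K₂ := fun h => hz (Or.inr h)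
    have e1 := (incS K₁ x y hJ.arc₁ z hz₁).2.2.2.1
    have e2 := (incS K₂ x y hJ.arc₂ z hz₂).2.2.2.1
    have h : Complex.exp (wnd K₁ K₂ x y z) = 1 := by
      unfold wnd
      rw [Complex.exp_sub, e1, e2]
      apply div_self
      apply div_ne_zero
      · intro h0; exact hz₁ (sub_eq_zero.1 h0 ▸ hy₁)
      · intro h0; exact hz₁ (sub_eq_zero.1 h0 ▸ hx₁)
    exact Complex.exp_eq_one_iff.1 h
  have hloc : ∀ z ∉ K₁ ∪ K₂, ∃ δ : ℝ, 0 < δ ∧ ∀ z', ‖z - z'‖ < δ →
      wnd K₁ K₂ x y z' = wnd K₁ K₂ x y z := by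
    intro z hz
    have hd : 0 < Metric.infDist z (K₁ ∪ K₂) :=
      (hcl.notMem_iff_infDist_pos ⟨x, Or.inl hx₁⟩).1 hz
    refine ⟨Metric.infDist z (K₁ ∪ K₂), hd, fun z' hz' => ?_⟩
    have hb : ∀ t ∈ K₁ ∪ K₂, Metric.infDist z (K₁ ∪ K₂) ≤ ‖t - z‖ := by
      intro t ht
      rw [← dist_eq_norm, dist_comm]
      exact Metric.infDist_le_dist_of_mem ht
    have h1 := (inc_shift hJ.arc₁ (fun h => hz (Or.inl h)) hd (fun t ht => hb t (Or.inl ht)) hz').2
    have h2 := (inc_shift hJ.arc₂ (fun h => hz (Or.inr h)) hd (fun t ht => hb t (Or.inr ht)) hz').2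
    unfold wnd
    rw [h1, h2]
    ring
  have hconst : ∀ z ∉ K₁ ∪ K₂, ∀ z' ∈ connectedComponentIn (K₁ ∪ K₂)ᶜ z,
      wnd K₁ K₂ x y z' = wnd K₁ K₂ x y z := by
    intro z hz z' hz'
    have hsub : connectedComponentIn (K₁ ∪ K₂)ᶜ z ⊆ (K₁ ∪ K₂)ᶜ := connectedComponentIn_subset _ _
    have hcont : ContinuousOn (fun z => wnd K₁ K₂ x y z) (connectedComponentIn (K₁ ∪ K₂)ᶜ z) := by
      intro w hw
      obtain ⟨δ, hδ, hc⟩ := hloc w (hsub hw)
      have h1 : (fun z => wnd K₁ K₂ x y z) =ᶠ[𝓝 w] fun _ => wnd K₁ K₂ x y w := by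
        filter_upwards [Metric.ball_mem_nhds w hδ] with v hv
        apply hc
        rw [← dist_eq_norm, dist_comm]
        exact hv
      exact (continuousAt_const.congr h1.symm).continuousWithinAt
    obtain ⟨n, hn⟩ := H77.int_const isPreconnected_connectedComponentIn
      (hcont.div_const (2 * Real.pi * Complex.I)) (by
        intro w hw
        obtain ⟨n, hn⟩ := hint w (hsub hw)
        refine ⟨n, ?_⟩
        rw [hn]
        field_simp)
    have e1 := hn z' hz'
    have e2 := hn z (mem_connectedComponentIn hz)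
    rw [div_eq_iff h2pi] at e1 e2
    rw [e1, e2]
  refine ⟨hint, hconst, ?_⟩
  intro z hz hb
  obtain ⟨R, hR0, hRK, hR⟩ := H35.unb_comp hcp.isBounded
  obtain ⟨M, hM⟩ := hcp.isBounded.exists_norm_le
  set z' : ℂ := ((max R (max M 0) + 1 : ℝ) : ℂ) with hz'
  have hn : ‖z'‖ = max R (max M 0) + 1 := by
    rw [hz', Complex.norm_real, Real.norm_eq_abs, abs_of_pos]
    have := le_max_right M 0
    have := le_max_right R (max M 0)
    linarith
  have hzR : R < ‖z'‖ := by
    rw [hn]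
    have := le_max_left R (max M 0)
    linarith
  have hzM : ∀ t ∈ K₁ ∪ K₂, ‖t‖ < ‖z'‖ := by
    intro t ht
    have h1 := hM t ht
    have h2 := le_max_left M 0
    have h3 := le_max_right R (max M 0)
    rw [hn]
    linarith
  have hz'K : z' ∉ K₁ ∪ K₂ := hRK z' hzR
  have hmem : z' ∈ connectedComponentIn (K₁ ∪ K₂)ᶜ z := hR z hz hb hzR
  rw [← hconst z hz z' hmem]
  have hz0 : z' ≠ 0 := by
    intro h
    have := hzM x (Or.inl hx₁)
    rw [h, norm_zero] at this
    exact absurd this (not_lt.2 (norm_nonneg _))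
  have key : ∀ (K : Set ℂ), IsArc K x y → K ⊆ K₁ ∪ K₂ →
      inc K x y z' = Complex.log (1 - y / z') - Complex.log (1 - x / z') := by
    intro K hK hsub
    obtain ⟨-, -, hx, hy, -⟩ := H77.arc_basic hK
    have hzK : z' ∉ K := fun h => hz'K (hsub h)
    have hs : ∀ t ∈ K, 1 - t / z' ∈ Complex.slitPlane := by
      intro t ht
      have e : 1 - t / z' = 1 + (-(t / z')) := by ring
      rw [e]
      apply Complex.mem_slitPlane_of_norm_lt_one
      rw [norm_neg, norm_div, div_lt_one (norm_pos_iff.2 hz0)]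
      exact hzM t (hsub ht)
    symm
    apply inc_uniq hK hzK
    refine ⟨fun t => Complex.log (-z') + Complex.log (1 - t / z'), ?_, ?_, ?_⟩
    · refine continuousOn_const.add (ContinuousOn.clog (by fun_prop) hs)
    · intro t ht
      rw [Complex.exp_add, Complex.exp_log (neg_ne_zero.2 hz0),
        Complex.exp_log (Complex.slitPlane_ne_zero (hs t ht))]
      field_simp
      ring
    · simp only
      ring
  unfold wnd
  rw [key K₁ hJ.arc₁ subset_union_left, key K₂ hJ.arc₂ subset_union_right]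
  ring

end Pool.Agent.BS.H47
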