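import Pool.Agent.Helper47_BS.Inc

/-! # BS squad: module JORDAN -/

set_option autoImplicit false

namespace Pool.Agent.BS.H47

open Function Filter Topology Set Pool.Agent.BS

theorem log_pair {K₁ K₂ : Set ℂ} {x y z z' : ℂ} (hJ : IsJor K₁ K₂ x y) (hz : z ∉ K₁ ∪ K₂)
    (hz' : z' ∉ K₁ ∪ K₂) (m m' : ℤ)
    (h0 : (m : ℂ) * wnd K₁ K₂ x y z + m' * wnd K₁ K₂ x y z' = 0) :
    ∃ g : ℂ → ℂ, ContinuousOn g (K₁ ∪ K₂) ∧
      ∀ t ∈ K₁ ∪ K₂, Complex.exp (g t) = (t - z) ^ m * (t - z') ^ m' := by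
  obtain ⟨hcp₁, hc₁, hx₁, hy₁, hxy⟩ := H77.arc_basic hJ.arc₁
  obtain ⟨hcp₂, hc₂, hx₂, hy₂, -⟩ := H77.arc_basic hJ.arc₂
  obtain ⟨a₁, ha₁, ha₁', ha₁''⟩ := inc_spec hJ.arc₁ (z := z) (fun h => hz (Or.inl h))
  obtain ⟨a₂, ha₂, ha₂', ha₂''⟩ := inc_spec hJ.arc₂ (z := z) (fun h => hz (Or.inr h))
  obtain ⟨b₁, hb₁, hb₁', hb₁''⟩ := inc_spec hJ.arc₁ (z := z') (fun h => hz' (Or.inl h))
  obtain ⟨b₂, hb₂, hb₂', hb₂''⟩ := inc_spec hJ.arc₂ (z := z') (fun h => hz' (Or.inr h))
  unfold wnd at h0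
  rw [← ha₁'', ← ha₂'', ← hb₁'', ← hb₂''] at h0
  set C : ℂ := m * (a₁ x - a₂ x) + m' * (b₁ x - b₂ x) with hC
  obtain ⟨G, hG, hG1, hG2⟩ := glue hcp₁.isClosed hcp₂.isClosed
    (g := fun t => (m : ℂ) * a₁ t + m' * b₁ t) (g' := fun t => (m : ℂ) * a₂ t + m' * b₂ t + C)
    ((continuousOn_const.mul ha₁).add (continuousOn_const.mul hb₁))
    (((continuousOn_const.mul ha₂).add (continuousOn_const.mul hb₂)).add continuousOn_const) (by
      intro t ht ht'
      have : t ∈ K₁ ∩ K₂ := ⟨ht, ht'⟩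
      rw [hJ.inter] at this
      rcases this with rfl | h
      · simp only [hC]; ring
      · rw [mem_singleton_iff.1 h]
        simp only [hC]
        linear_combination h0)
  refine ⟨G, hG, ?_⟩
  rintro t (ht | ht)
  · rw [hG1 t ht, Complex.exp_add, Complex.exp_int_mul, Complex.exp_int_mul, ha₁' t ht, hb₁' t ht]
  · rw [hG2 t ht, Complex.exp_add, Complex.exp_add, Complex.exp_int_mul, Complex.exp_int_mul,
      ha₂' t ht, hb₂' t ht]
    have e1 : Complex.exp (a₁ x - a₂ x) = 1 := by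
      rw [Complex.exp_sub, ha₁' x hx₁, ha₂' x hx₂]
      apply div_self
      intro h
      exact hz (Or.inl (sub_eq_zero.1 h ▸ hx₁))
    have e2 : Complex.exp (b₁ x - b₂ x) = 1 := by
      rw [Complex.exp_sub, hb₁' x hx₁, hb₂' x hx₂]
      apply div_self
      intro h
      exact hz' (Or.inl (sub_eq_zero.1 h ▸ hx₁))
    have e3 : Complex.exp C = 1 := by
      rw [hC, Complex.exp_add, Complex.exp_int_mul, Complex.exp_int_mul, e1, e2, one_zpow, one_zpow,
        one_mul]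
    rw [e3, mul_one]

theorem jordanS : JordanStmt := by
  intro K₁ K₂ x y hJ
  obtain ⟨hcp₁, hc₁, hx₁, hy₁, hxy⟩ := H77.arc_basic hJ.arc₁
  obtain ⟨hcp₂, hc₂, hx₂, hy₂, -⟩ := H77.arc_basic hJ.arc₂
  have hcl : IsClosed (K₁ ∪ K₂) := hcp₁.isClosed.union hcp₂.isClosed
  have hcp : IsCompact (K₁ ∪ K₂) := hcp₁.union hcp₂
  have h2pi : (2 * (Real.pi : ℂ) * Complex.I) ≠ 0 := Complex.two_pi_I_ne_zero
  obtain ⟨hint, hconst, hunb⟩ := wndS K₁ K₂ x y hJ
  have h1 : ∀ z ∉ K₁ ∪ K₂, Bornology.IsBounded (connectedComponentIn (K₁ ∪ K₂)ᶜ z) →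
      wnd K₁ K₂ x y z ≠ 0 := by
    intro z hz hb h0
    obtain ⟨z₂, hz₂, hz₂'⟩ := H35.exists_unb_comp hcp.isBounded
    have hne : z₂ ∉ connectedComponentIn (K₁ ∪ K₂)ᶜ z := by
      intro h
      rw [← connectedComponentIn_eq h] at hz₂'
      exact hz₂' hb
    refine H77.borsuk H77.log (K₁ ∪ K₂) z z₂ 1 0 hcp hz hz₂ hb hne one_ne_zero ?_
    exact log_pair hJ hz hz₂ 1 0 (by rw [h0]; simp)
  refine ⟨h1, ?_, ?_⟩
  · intro z hz z' hz' hb hb'
    by_contra hne
    have hnot : z' ∉ connectedComponentIn (K₁ ∪ K₂)ᶜ z := by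
      intro h
      exact hne (connectedComponentIn_eq h)
    obtain ⟨n, hn⟩ := hint z hz
    obtain ⟨n', hn'⟩ := hint z' hz'
    have hn'0 : n' ≠ 0 := by
      rintro rfl
      exact h1 z' hz' hb' (by rw [hn']; simp)
    refine H77.borsuk H77.log (K₁ ∪ K₂) z z' n' (-n) hcp hz hz' hb hnot hn'0 ?_
    refine log_pair hJ hz hz' n' (-n) ?_
    rw [hn, hn']
    push_cast
    ring
  · intro z hz hb z' hz' hb' w hw hwx hwy
    set U := connectedComponentIn (K₁ ∪ K₂)ᶜ z' with hU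
    have hUo : IsOpen U := hcl.isOpen_compl.connectedComponentIn
    by_contra hwU
    obtain ⟨ε, hε, hball⟩ := Metric.isOpen_iff.1 (isClosed_closure (s := U)).isOpen_compl w hwU
    obtain ⟨Ka, Kb, x', y', hKa, hKb, hsub, hdis, -, hgap⟩ :=
      H77.arcOp.2.2.2.2 K₁ x y w hJ.arc₁ hw hwx hwy ε hε
    obtain ⟨-, -, hxa, hxa', -⟩ := H77.arc_basic hKa
    obtain ⟨-, -, hyb', hyb, -⟩ := H77.arc_basic hKb
    have hint12 : ∀ t, t ∈ K₁ → t ∈ K₂ → t = x ∨ t = y := by
      intro t h1 h2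
      have : t ∈ K₁ ∩ K₂ := ⟨h1, h2⟩
      rw [hJ.inter] at this
      exact this
    have hyKa : y ∉ Ka := fun h => Set.disjoint_left.1 hdis h hyb
    have hxKb : x ∉ Kb := fun h => Set.disjoint_left.1 hdis hxa h
    have hi1 : Ka ∩ K₂ = {x} := by
      ext t
      constructor
      · rintro ⟨ht1, ht2⟩
        rcases hint12 t (hsub (Or.inl ht1)) ht2 with rfl | rfl
        · rfl
        · exact absurd ht1 hyKa
      · rintro rfl
        exact ⟨hxa, hx₂⟩
    have hi2 : (Ka ∪ K₂) ∩ Kb = {y} := by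
      ext t
      constructor
      · rintro ⟨ht1 | ht1, ht2⟩
        · exact absurd ht2 (Set.disjoint_left.1 hdis ht1)
        · rcases hint12 t (hsub (Or.inr ht2)) ht1 with rfl | rfl
          · exact absurd ht2 hxKb
          · rfl
      · rintro rfl
        exact ⟨Or.inr hy₂, hyb⟩
    have harc1 : IsArc (Ka ∪ K₂) x' y := H77.arc_cat (H77.arc_symm hKa) hJ.arc₂ hi1
    have harc2 : IsArc (Ka ∪ K₂ ∪ Kb) x' y' := H77.arc_cat harc1 (H77.arc_symm hKb) hi2
    have hfr : frontier U ⊆ Ka ∪ K₂ ∪ Kb := by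
      intro t ht
      have htc : t ∈ closure U := frontier_subset_closure ht
      have htU : t ∉ U := by
        rw [hUo.frontier_eq] at ht
        exact ht.2
      have htK : t ∈ K₁ ∪ K₂ := by
        rcases H77.closure_comp hcl z' htc with h | h
        · exact absurd h htU
        · exact h
      rcases htK with h | h
      · by_contra hcon
        have hnot : t ∉ Ka ∪ Kb := by
          rintro (h' | h')
          · exact hcon (Or.inl (Or.inl h'))
          · exact hcon (Or.inr h')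
        have hd := hgap t h hnot
        exact hball (Metric.mem_ball.2 hd) htc
      · exact Or.inl (Or.inr h)
    have hcon := (H77.arcCompl (H77.borsuk H77.log) H77.arcLog _ _ _ harc2).1 (frontier U) hfr
      isClosed_frontier
    have hz'U : z' ∈ U := mem_connectedComponentIn hz'
    have hz'f : z' ∈ (frontier U)ᶜ := by
      intro h
      rw [hUo.frontier_eq] at h
      exact h.2 hz'U
    have hsubU := H35.pre_sub_of_frontier hcon.isPreconnected (U := U) ⟨z', hz'f, hz'U⟩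
      disjoint_compl_left
    have hzf : z ∈ (frontier U)ᶜ := by
      intro h
      have htc : z ∈ closure U := frontier_subset_closure h
      rcases H77.closure_comp hcl z' htc with h2 | h2
      · rw [hUo.frontier_eq] at h
        exact h.2 h2
      · exact hz h2
    have hzU : z ∈ U := hsubU hzf
    rw [hU] at hzU
    apply hb'
    rw [hU, connectedComponentIn_eq hzU]
    exact hb

end Pool.Agent.BS.H47
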