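import Pool.Agent.Helper47_BS.StmtsT

/-! # BS squad: final assembly -/

set_option autoImplicit false

namespace Pool.Agent.BS.H47

open Function Filter MeasureTheory Topology Pool.Agent.BS

theorem mainAsm (ht : TopoStmt) (hf : FlowStmt) (hb : PerBelowStmt) :
  ∀ (V : Type) (G : SimpleGraph V),
    G.Connected →
    (∃ D : ℕ, ∀ v : V, (G.neighborSet v).Finite ∧ (G.neighborSet v).ncard ≤ D) →
    (∃ (φ : V → ℂ) (γ : V → V → ℝ → ℂ),
      Function.Injective φ ∧
      (∀ u v, G.Adj u v → ContinuousOn (γ u v) (Set.Icc 0 1) ∧ Set.InjOn (γ u v) (Set.Icc 0 1) ∧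
          γ u v 0 = φ u ∧ γ u v 1 = φ v ∧ γ u v '' Set.Icc 0 1 = γ v u '' Set.Icc 0 1) ∧
      (∀ u v w, G.Adj u v → ∀ s ∈ Set.Icc (0:ℝ) 1, γ u v s = φ w → w = u ∨ w = v) ∧
      (∀ u v x y, G.Adj u v → G.Adj x y → ∀ s ∈ Set.Icc (0:ℝ) 1, ∀ t ∈ Set.Icc (0:ℝ) 1,
          γ u v s = γ x y t → (u = x ∧ v = y) ∨ (u = y ∧ v = x) ∨ ∃ w, γ u v s = φ w) ∧
      (∀ K : Set ℂ, IsCompact K →
          {p : V × V | G.Adj p.1 p.2 ∧ (γ p.1 p.2 '' Set.Icc 0 1 ∩ K).Nonempty}.Finite) ∧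
      (∀ z : ℂ, (∀ u v, G.Adj u v → z ∉ γ u v '' Set.Icc 0 1) →
          ∃ a b c, G.Adj a b ∧ G.Adj b c ∧ G.Adj c a ∧
            frontier (connectedComponentIn
                {y : ℂ | ∀ u v, G.Adj u v → y ∉ γ u v '' Set.Icc 0 1} z) =
              γ a b '' Set.Icc 0 1 ∪ γ b c '' Set.Icc 0 1 ∪ γ c a '' Set.Icc 0 1)) →
    (∃ h : ℝ, 0 < h ∧ ∀ S : Set V, S.Finite → S.Nonempty →
        h * (S.ncard : ℝ) ≤ ({p : V × V | p.1 ∈ S ∧ p.2 ∉ S ∧ G.Adj p.1 p.2}.ncard : ℝ)) →
    ∃ (p : NNReal) (hp : p ≤ 1), p < 1/2 ∧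
      0 < MeasureTheory.Measure.infinitePi (fun _ : V => (PMF.bernoulli p hp).toMeasure)
        {ω : V → Bool | ∃ S : Set V, S.Infinite ∧ (∀ v ∈ S, ω v = true) ∧
          (G.induce S).Connected} := by
  classical
  intro V G hconn hdeg hemb hch
  obtain ⟨Δ, hΔ⟩ := hdeg
  obtain ⟨φ, γ, h1, h2, h3, h4, h5, h6⟩ := hemb
  obtain ⟨h, hh, hS⟩ := hch
  have hne : Nonempty V := hconn.nonempty
  have hinf : Infinite V := by
    by_contra hfin
    rw [not_infinite_iff_finite] at hfin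
    have h7 := hS Set.univ (Set.toFinite _) Set.univ_nonempty
    have h8 : {p : V × V | p.1 ∈ (Set.univ : Set V) ∧ p.2 ∉ (Set.univ : Set V) ∧ G.Adj p.1 p.2}
        = ∅ := by
      ext p; simp
    rw [h8, Set.ncard_empty] at h7
    have h9 : 0 < (Set.univ : Set V).ncard := by
      rw [Set.ncard_pos]; exact Set.univ_nonempty
    have h10 : (0 : ℝ) < (Set.univ : Set V).ncard := by exact_mod_cast h9
    have h11 := mul_pos hh h10
    have h12 : h * ((Set.univ : Set V).ncard : ℝ) ≤ 0 := by simpa using h7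
    exact absurd h12 (not_le.2 h11)
  have ctx : EmbCtx G φ γ :=
    ⟨⟨h1, h2, h3, h4, h5, h6⟩, hconn, hinf, fun v => (hΔ v).1⟩
  obtain ⟨T, hP, hlf, hrt⟩ := ht V G φ γ ctx
  have hDeg : T.Deg Δ := by
    intro v
    refine le_trans ?_ (hΔ v).2
    rw [← Set.ncard_coe_finset]
    refine Set.ncard_le_ncard_of_injOn (fun d => d.1.2) ?_ ?_ (hΔ v).1
    · intro d hd
      have hd2 : T.lf d = v := (T.mem_star v d).1 (by simpa using hd)
      rw [hlf] at hd2
      have := d.2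
      rw [hd2] at this
      exact this
    · intro d hd e he hde
      have hd2 : T.lf d = v := (T.mem_star v d).1 (by simpa using hd)
      have he2 : T.lf e = v := (T.mem_star v e).1 (by simpa using he)
      refine T.simple d e (hd2.trans he2.symm) ?_
      change T.rt d = T.rt e
      rw [hrt, hrt]
      exact hde
  have hCh : T.Cheeger h := by
    intro S hSne
    have h7 := hS (S : Set V) (Finset.finite_toSet S) (by simpa using hSne)
    rw [Set.ncard_coe_finset] at h7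
    refine le_trans h7 ?_
    have h8 : {p : V × V | p.1 ∈ (S : Set V) ∧ p.2 ∉ (S : Set V) ∧ G.Adj p.1 p.2}
        = (fun d : {p : V × V // G.Adj p.1 p.2} => d.1) '' (T.bd S : Set _) := by
      ext p
      constructor
      · rintro ⟨ha, hb, hc⟩
        refine ⟨⟨p, hc⟩, ?_, rfl⟩
        simp only [TMap.bd, Finset.coe_filter, Finset.mem_biUnion]
        refine ⟨⟨p.1, by simpa using ha, ?_⟩, ?_⟩
        · rw [T.mem_star, hlf]
        · rw [hrt]; simpa using hb
      · rintro ⟨d, hd, rfl⟩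
        simp only [TMap.bd, Finset.coe_filter, Finset.mem_biUnion] at hd
        obtain ⟨⟨v, hv, hdv⟩, hr⟩ := hd
        rw [T.mem_star, hlf] at hdv
        rw [hrt] at hr
        refine ⟨?_, ?_, d.2⟩
        · rw [hdv]; simpa using hv
        · simpa using hr
    have h9 : {p : V × V | p.1 ∈ (S : Set V) ∧ p.2 ∉ (S : Set V) ∧ G.Adj p.1 p.2}.ncard
        ≤ (T.bd S).card := by
      rw [h8]
      refine le_trans (Set.ncard_image_le (Finset.finite_toSet _)) ?_
      rw [Set.ncard_coe_finset]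
    exact_mod_cast h9
  obtain ⟨K, θ, hθ⟩ := hf _ _ T Δ h hDeg hh hCh hne
  obtain ⟨p, hp, hp2, x, hx⟩ := hb _ _ T Δ K θ hP hDeg hθ hne
  refine ⟨p, hp, hp2, ?_⟩
  refine lt_of_lt_of_le hx (measure_mono ?_)
  intro c hc
  have hc' : (T.clu c x).Infinite := hc
  have hcx : c x = true := by
    obtain ⟨y, hy⟩ := hc'.nonempty
    exact hy.1
  have hadj : ∀ u v, T.Adj u v → G.Adj u v := by
    rintro u v ⟨d, rfl, rfl⟩
    rw [hlf, hrt]
    exact d.2
  refine ⟨T.clu c x, hc', ?_, ?_⟩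
  · rintro y ⟨-, hy⟩
    induction hy with
    | refl => exact hcx
    | tail _ h7 _ =>
      have := h7.1
      simp only [Set.mem_ofPred_eq, Bool.not_eq_false] at this
      exact this
  · rw [SimpleGraph.connected_iff_exists_forall_reachable]
    refine ⟨⟨x, hcx, Relation.ReflTransGen.refl⟩, ?_⟩
    rintro ⟨y, hy1, hy⟩
    induction hy with
    | refl => exact SimpleGraph.Reachable.refl _
    | @tail u v h7 h8 ih =>
      refine ih.trans ?_
      apply SimpleGraph.Adj.reachable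
      exact hadj u v h8.2

end Pool.Agent.BS.H47
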