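import Pool.Agent.Helper47_BS.Basic

/-! # BS squad: statements of the combinatorial and measure theoretic modules -/

set_option autoImplicit false

namespace Pool.Agent.BS

open Function Filter MeasureTheory Topology

/-! ## further definitions -/

namespace TMap

variable {D V : Type} (T : TMap D V)

open Classical in
/-- boundary darts of a finite set of vertices -/
noncomputable def bd (S : Finset V) : Finset D :=
  (S.biUnion T.star).filter (fun d => T.rt d ∉ S)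

/-- forward average of `θ` along the interface -/
def FAvg (θ : D → ℤ) (c : V → Bool) (s : D) (a : ℝ) : Prop :=
  Tendsto (fun n : ℕ => (∑ k ∈ Finset.range n, (θ (T.st c s (k : ℤ)) : ℝ)) / n) atTop (𝓝 a)

/-- backward average of `θ` along the interface -/
def BAvg (θ : D → ℤ) (c : V → Bool) (s : D) (a : ℝ) : Prop :=
  Tendsto (fun n : ℕ => (∑ k ∈ Finset.range n, (θ (T.st c s (-(k : ℤ))) : ℝ)) / n) atTop (𝓝 a)

/-- no dart of `P` off the interface has its right vertex on the interface -/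
def NoR (P : Set D) (c : V → Bool) (s : D) : Prop :=
  ∀ e ∈ P, (∀ j : ℤ, T.st c s j ≠ e) → ∀ i : ℤ, T.rt e ≠ T.rt (T.st c s i)

/-- no dart of `P` off the interface has its left vertex on the interface -/
def NoL (P : Set D) (c : V → Bool) (s : D) : Prop :=
  ∀ e ∈ P, (∀ j : ℤ, T.st c s j ≠ e) → ∀ i : ℤ, T.lf e ≠ T.lf (T.st c s i)

/-- typical environments (a property of graph, flow, colors, past marks, root only) -/
structure TypE (θ : D → ℤ) (E : Env D V) : Prop where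
  state : T.State E.c E.r
  inj : Injective (T.st E.c E.r)
  memP : ∀ i : ℤ, T.st E.c E.r i ∈ E.P ↔ i ≤ 0
  avg : ∃ a : ℝ, T.FAvg θ E.c E.r a ∧ T.BAvg θ E.c E.r a
  lo : (∀ i : ℤ, i ≤ 0 → ∀ e ∈ E.P, (∀ j : ℤ, T.st E.c E.r j ≠ e) →
      T.lf e ≠ T.lf (T.st E.c E.r i)) → T.NoL E.P E.c E.r
  ro : (∀ i : ℤ, i ≤ 0 → ∀ e ∈ E.P, (∀ j : ℤ, T.st E.c E.r j ≠ e) →
      T.rt e ≠ T.rt (T.st E.c E.r i)) → T.NoR E.P E.c E.r

end TMap

/-! ## A. Planarity lemmas (deterministic) -/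

/-- A1 -/
def FluxStmt : Prop :=
  ∀ (D V : Type) (T : TMap D V) (K : ℕ) (θ : D → ℤ) (p : ℕ → D) (n : ℕ) (χ : V → ℤ) (F : Finset V),
    T.IsFlow K θ → (∀ d, T.cnt p n d = χ (T.lf d) - χ (T.rt d)) → (∀ v, χ v ≠ 0 → v ∈ F) →
    ∑ k ∈ Finset.range n, θ (p k) = ∑ v ∈ F, χ v * ∑ d ∈ T.star v, θ d

/-- A1 -/
def FluxSetStmt : Prop :=
  ∀ (D V : Type) (T : TMap D V) (K : ℕ) (θ : D → ℤ) (S : Finset V),
    T.IsFlow K θ → (S.card : ℤ) ≤ ∑ d ∈ T.bd S, θ d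

/-- A1 -/
def InfStmt : Prop :=
  ∀ (D V : Type) (T : TMap D V) (K : ℕ) (θ : D → ℤ), T.IsFlow K θ → Nonempty V → Infinite V

/-- A2: the mirror image of a planar map is planar -/
def MirPlanarStmt : Prop :=
  ∀ (D V : Type) (T : TMap D V), T.Planar → T.mirror.Planar

/-- A3: a set with finite edge boundary is finite or cofinite -/
def OEStmt : Prop :=
  ∀ (D V : Type) (T : TMap D V), T.Planar → ∀ S : Set V,
    {d | T.lf d ∈ S ∧ T.rt d ∉ S}.Finite → S.Finite ∨ Sᶜ.Finite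

/-- A4: no alternation around a vertex -/
def AltStmt : Prop :=
  ∀ (D V : Type) (T : TMap D V), T.Planar → ∀ (b : V) (Z E : Set V), Z.Finite →
    T.Conn Z → T.Conn E → Disjoint Z E → b ∉ Z → b ∉ E →
    ∀ (d : D) (q r u n : ℕ), T.rt d = b → 0 < q → q < r → r < u → u < n →
      (∀ i j : ℕ, i < j → j < n → (T.rho ^ i) d ≠ (T.rho ^ j) d) →
      T.lf d ∈ E → T.lf ((T.rho ^ q) d) ∈ Z → T.lf ((T.rho ^ r) d) ∈ E → T.lf ((T.rho ^ u) d) ∈ Z →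
      False

/-- A5: windows with equal right ends of a bi-infinite interface -/
def WinBStmt : Prop :=
  ∀ (D V : Type) (T : TMap D V) (c : V → Bool) (s : D), T.Planar → Infinite V → T.State c s →
    Injective (T.st c s) → ∀ j i : ℤ, j < i → T.rt (T.st c s j) = T.rt (T.st c s i) →
    ∃ χ : V → ℤ, (support χ).Finite ∧ (∀ v, χ v = 0 ∨ χ v = -1) ∧
      (∀ k, χ (T.lf (T.st c s k)) = 0) ∧
      (∀ k, j ≤ k → k ≤ i → χ (T.rt (T.st c s k)) = -1) ∧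
      (∀ k, (k < j ∨ i < k) → T.rt (T.st c s k) ≠ T.rt (T.st c s j) →
        χ (T.rt (T.st c s k)) = 0) ∧
      (∀ d, c (T.lf d) = c (T.rt d) → T.lf d ≠ T.rt (T.st c s j) → T.rt d ≠ T.rt (T.st c s j) →
        χ (T.lf d) = χ (T.rt d)) ∧
      (∀ (Δ K : ℕ) (θ : D → ℤ), T.Deg Δ → T.IsFlow K θ →
        (Δ : ℤ) * ∑ k ∈ Finset.Ico j i, θ (T.st c s k) ≤ -(i - j) + K * Δ * Δ)

/-- A6: windows with equal left ends of a bi-infinite interface -/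
def WinAStmt : Prop :=
  ∀ (D V : Type) (T : TMap D V) (c : V → Bool) (s : D), T.Planar → Infinite V → T.State c s →
    Injective (T.st c s) → ∀ j i : ℤ, j < i → T.lf (T.st c s j) = T.lf (T.st c s i) →
    ∃ χ : V → ℤ, (support χ).Finite ∧ (∀ v, χ v = 0 ∨ χ v = 1) ∧
      (∀ k, χ (T.rt (T.st c s k)) = 0) ∧
      (∀ k, j ≤ k → k ≤ i → χ (T.lf (T.st c s k)) = 1) ∧
      (∀ k, (k < j ∨ i < k) → T.lf (T.st c s k) ≠ T.lf (T.st c s j) →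
        χ (T.lf (T.st c s k)) = 0) ∧
      (∀ d, c (T.lf d) = c (T.rt d) → T.lf d ≠ T.lf (T.st c s j) → T.rt d ≠ T.lf (T.st c s j) →
        χ (T.lf d) = χ (T.rt d))

/-- A7: existence of cut times -/
def CutStmt : Prop :=
  ∀ (D V : Type) (T : TMap D V) (Δ K : ℕ) (θ : D → ℤ) (c : V → Bool) (s : D) (a : ℝ),
    T.Planar → T.Deg Δ → T.IsFlow K θ → T.State c s → Injective (T.st c s) → 0 < a →
    T.FAvg θ c s a → T.BAvg θ c s a →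
    ∃ t : ℕ, ∀ j i : ℤ, j ≤ t → (t : ℤ) < i → T.rt (T.st c s j) ≠ T.rt (T.st c s i)

/-! ## B. The deterministic contradiction -/

/-- the situation of the deterministic lemma -/
structure DetCtx {D V : Type} (T : TMap D V) (Δ K : ℕ) (θ : D → ℤ) (E : Env D V) (a : ℝ) : Prop where
  planar : T.Planar
  deg : T.Deg Δ
  flow : T.IsFlow K θ
  good : T.Good E
  pos : 0 < a
  favg : T.FAvg θ E.c E.r a
  bavg : T.BAvg θ E.c E.r a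
  norP : T.NoR E.P E.c E.r
  nolP : T.NoL E.P E.c E.r
  norF : T.NoR E.F E.c E.r
  cut : ∀ j i : ℤ, j ≤ 0 → 0 < i → T.rt (T.st E.c E.r j) ≠ T.rt (T.st E.c E.r i)
  tot : T.TypE θ (T.flipE Set.univ E)
  fin : ∀ S : Finset V, T.mirror.TypE θ (T.mirror.flipE (S : Set V) E.mir)

/-- B1: first properties of the totally flipped interface -/
def Det1Stmt : Prop :=
  ∀ (D V : Type) (T : TMap D V) (Δ K : ℕ) (θ : D → ℤ) (E : Env D V) (a : ℝ),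
    DetCtx T Δ K θ E a →
    (∀ i : ℤ, i ≤ 0 → T.st (T.flipE Set.univ E).c E.r i = T.st E.c E.r i) ∧
    T.FAvg θ (T.flipE Set.univ E).c E.r a ∧
    T.NoL E.P (T.flipE Set.univ E).c E.r ∧ T.NoR E.P (T.flipE Set.univ E).c E.r ∧
    (∀ i : ℤ, 0 < i → E.c (T.rt (T.st E.c E.r i)) = false ∧ T.rt (T.st E.c E.r i) ∉ T.vP E ∧
      T.Reach {x | E.c x = true ∨ x ∈ T.vP E} (T.tau E.r) (T.rt (T.st E.c E.r i)))

/-- B2: its left vertices stay in the fresh closed cluster of `tau E.r` -/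
def Det2Stmt : Prop :=
  ∀ (D V : Type) (T : TMap D V) (Δ K : ℕ) (θ : D → ℤ) (E : Env D V) (a : ℝ),
    DetCtx T Δ K θ E a → ∀ i : ℤ, 0 < i →
      E.c (T.lf (T.st (T.flipE Set.univ E).c E.r i)) = false ∧
      T.lf (T.st (T.flipE Set.univ E).c E.r i) ∉ T.vP E ∧
      T.Reach {x | E.c x = true ∨ x ∈ T.vP E} (T.tau E.r)
        (T.lf (T.st (T.flipE Set.univ E).c E.r i))

/-- B3: its right vertices are in the past only finitely often, and then they are right vertices of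
the past interface -/
def Det3Stmt : Prop :=
  ∀ (D V : Type) (T : TMap D V) (Δ K : ℕ) (θ : D → ℤ) (E : Env D V) (a : ℝ),
    DetCtx T Δ K θ E a →
    (∀ i : ℤ, 0 < i → T.rt (T.st (T.flipE Set.univ E).c E.r i) ∈ T.vP E →
      E.c (T.rt (T.st (T.flipE Set.univ E).c E.r i)) = false ∧
      ∃ j : ℤ, j ≤ 0 ∧ T.rt (T.st (T.flipE Set.univ E).c E.r i) = T.rt (T.st E.c E.r j)) ∧
    ∃ N : ℤ, ∀ i : ℤ, N < i → T.rt (T.st (T.flipE Set.univ E).c E.r i) ∉ T.vP E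

/-- B4: the deterministic contradiction -/
def DetStmt : Prop :=
  ∀ (D V : Type) (T : TMap D V) (Δ K : ℕ) (θ : D → ℤ) (E : Env D V) (a : ℝ),
    DetCtx T Δ K θ E a → False

/-! ## C. Finite loops -/

/-- C1: basic facts on loops -/
def LoopStmt : Prop :=
  ∀ (D V : Type) (T : TMap D V) (Δ K : ℕ) (θ : D → ℤ) (c : V → Bool) (s : D) (ℓ : ℕ) (H : Finset V),
    T.Planar → T.Deg Δ → T.IsFlow K θ → T.IsLoop c s ℓ H →
    H.card ≤ K * ℓ ∧ ℓ ≤ Δ * H.card ∧ T.Conn (H : Set V) ∧ T.Conn (H : Set V)ᶜ ∧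
    T.mirror.IsLoop c s ℓ H

/-- C2 -/
def FinDriftStmt : Prop :=
  ∀ (D V : Type) (T : TMap D V) (Δ K : ℕ) (θ : D → ℤ) (c : V → Bool) (s : D) (ℓ : ℕ) (H : Finset V)
    (m : ℕ), T.Planar → T.Deg Δ → T.IsFlow K θ → T.IsLoop c s ℓ H → K * Δ ≤ m →
    open Classical in
    (ℓ : ℤ) ≤ Δ * ∑ k ∈ Finset.range ℓ,
      (if T.rt ((T.nx c)^[k] s) ∈ T.hull (H : Set V) m then 0 else θ ((T.nx c)^[k] s))

/-- C3 -/
def FinChangeStmt : Prop :=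
  ∀ (D V : Type) (T : TMap D V) (Δ K : ℕ) (θ : D → ℤ) (c : V → Bool) (s : D) (ℓ : ℕ) (H : Finset V)
    (m : ℕ), T.Planar → T.Deg Δ → T.IsFlow K θ → T.IsLoop c s ℓ H → 1 ≤ m →
    open Classical in
    m * ((Finset.range ℓ).filter (fun k =>
      ¬ (T.rt ((T.nx c)^[k] s) ∈ T.hull (H : Set V) m ↔
         T.rt ((T.nx c)^[k + 1] s) ∈ T.hull (H : Set V) m))).card ≤ 4 * Δ * K * ℓ

/-- C4 -/
def FinOldStmt : Prop :=
  ∀ (D V : Type) (T : TMap D V) (Δ K : ℕ) (θ : D → ℤ) (c : V → Bool) (s : D) (ℓ : ℕ) (H : Finset V)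
    (m i k : ℕ), T.Planar → T.Deg Δ → T.IsFlow K θ → T.IsLoop c s ℓ H →
    T.rt ((T.nx c)^[i] s) = T.rt ((T.nx c)^[k] s) →
    i + Δ * (m + 1) ≤ k → k + Δ * (m + 1) ≤ ℓ + i →
    T.rt ((T.nx c)^[k] s) ∈ T.hull (H : Set V) m

/-- C5 -/
def FinCrossStmt : Prop :=
  ∀ (D V : Type) (T : TMap D V) (Δ K : ℕ) (θ : D → ℤ) (c : V → Bool) (s : D) (ℓ : ℕ) (H : Finset V)
    (y i i' x : ℕ), T.Planar → T.Deg Δ → T.IsFlow K θ → T.IsLoop c s ℓ H →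
    y < i → i < i' → i' < x → x < y + ℓ →
    T.lf ((T.nx c)^[y] s) = T.lf ((T.nx c)^[i'] s) →
    T.lf ((T.nx c)^[i] s) = T.lf ((T.nx c)^[x] s) →
    T.lf ((T.nx c)^[i] s) = T.lf ((T.nx c)^[i'] s)

/-! ## D. Exponential moments and flips -/

/-- D1 -/
def ExpmStmt : Prop :=
  ∀ (Ω : Type) (_ : Fintype Ω) (n : ℕ) (X : ℕ → Ω → ℝ) (φ : ℕ → Ω → Ω),
    (∀ k < n, ∀ ω, φ k (φ k ω) = ω) → (∀ k < n, ∀ ω, X k (φ k ω) = - X k ω) →
    (∀ k < n, ∀ j < k, ∀ ω, X j (φ k ω) = X j ω) → (∀ k < n, ∀ ω, |X k ω| ≤ 1) →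
    ∀ t : ℝ, ∑ ω, Real.exp (t * ∑ k ∈ Finset.range n, X k ω) ≤ Fintype.card Ω * (Real.cosh t) ^ n

/-- `f` depends only on the bits at `g ∈ Q` of the kinds col, past, eq, th -/
def LocalP (Q : Finset Gam) (f : Cod → ℝ) : Prop :=
  ∀ X Y : Cod, (∀ g ∈ Q, X .col g = Y .col g ∧ X .past g = Y .past g ∧ X .eq g = Y .eq g ∧
    ∀ z, X (.th z) g = Y (.th z) g) → f X = f Y

/-- D2 -/
def FlipFinStmt : Prop :=
  ∀ (Δ : ℕ) (S Q : Finset Gam), ∃ M R : ℕ, ∀ (D V : Type) (T : TMap D V) (θ : D → ℤ), T.Deg Δ →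
    ∀ (s : D) (ℓ : ℕ) (Λ : Finset V) (A : Finset (Finset V)) (B : Finset V → ℕ → Set V) (δ : ℝ)
      (f : Cod → ℝ),
    R ≤ ℓ → (∀ d ∈ T.ball s (8 * ℓ), T.lf d ∈ Λ) → A ⊆ Λ.powerset → A.Nonempty →
    (∀ ω ∈ A, ∃ H, T.IsLoop (colF ω) s ℓ H) → 0 < δ →
    Real.exp (-(δ ^ 2 * ℓ)) * 2 ^ Λ.card ≤ A.card → LocalP Q f → (∀ X, |f X| ≤ 1) →
    |∑ ω ∈ A, ∑ k ∈ Finset.range (ℓ + 1),
      (f (FlP Δ S (T.enc θ (T.smp (colF ω) (B ω) s ℓ k)))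
        - f (T.enc θ (T.smp (colF ω) (B ω) s ℓ k)))| ≤ A.card * (M * δ * (ℓ + 1) + 2)

/-! ## E. Codes -/

/-- E1 -/
def ContStmt : Prop :=
  Continuous Mi ∧ Continuous Sh ∧ Continuous Sb ∧ Continuous PrP ∧
  (∀ Δ S, Continuous (FlP Δ S)) ∧ (∀ Δ, Continuous (FlT Δ)) ∧ (∀ K, Continuous (th0 K))

/-- E2: the maps on codes, on representations -/
def CodeStmt : Prop :=
  ∀ (D V : Type) (T : TMap D V) (θ : D → ℤ) (E : Env D V),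
    Mi (T.enc θ E) = T.mirror.enc θ E.mir ∧
    (T.State E.c E.r → Sh (T.enc θ E) = T.enc θ (T.shE E)) ∧
    PrP (T.enc θ E) = T.enc θ { E with F := ∅, B := fun _ => ∅ } ∧
    (∀ (Δ : ℕ) (S : Finset Gam), T.Deg Δ →
      FlP Δ S (T.enc θ E) = T.enc θ (T.flipE {v | ∃ g ∈ S, T.lf (T.act g E.r) = v} E)) ∧
    (∀ Δ : ℕ, T.Deg Δ → FlT Δ (T.enc θ E) = T.enc θ (T.flipE Set.univ E)) ∧
    (∀ K : ℕ, (∀ d, |θ d| ≤ (K : ℤ)) → th0 K (T.enc θ E) = θ E.r)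

/-- E3: iterated shifts of good environments -/
def AtStmt : Prop :=
  ∀ (D V : Type) (T : TMap D V) (θ : D → ℤ) (E : Env D V), T.Good E →
    T.atE E 0 = E ∧ (∀ i j : ℤ, T.atE (T.atE E i) j = T.atE E (i + j)) ∧
    (∀ i : ℤ, T.Good (T.atE E i)) ∧ T.mirror.Good E.mir ∧
    (∀ i : ℤ, T.st E.c (T.atE E i).r = fun j => T.st E.c E.r (i + j)) ∧
    (∀ i : ℤ, (T.atE E i).P \ T.strand (T.atE E i) = E.P \ T.strand E ∧
      (T.atE E i).F \ T.strand (T.atE E i) = E.F \ T.strand E) ∧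
    (∀ n : ℕ, Sh^[n] (T.enc θ E) = T.enc θ (T.atE E n)) ∧
    (∀ n : ℕ, Sb^[n] (T.enc θ E) = T.enc θ (T.atE E (-n)))

/-- E4 -/
def ClosedStmt : Prop := ∀ Δ K : ℕ, IsClosed {X | Valid Δ K X}

/-! ## F. Limits -/

/-- F1 -/
def LimStmt : Prop :=
  ∀ (α : Type) (I : ℕ → Finset α) (x : ℕ → α → Cod), (∀ n, (I n).Nonempty) →
    ∃ (μ : Measure Cod) (𝒰 : Filter ℕ), IsProbabilityMeasure μ ∧ 𝒰.NeBot ∧ 𝒰 ≤ atTop ∧
      ∀ f : Cod → ℝ, Continuous f →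
        Tendsto (fun n => (∑ i ∈ I n, f (x n i)) / (I n).card) 𝒰 (𝓝 (∫ X, f X ∂μ))

/-- a sequence of families of loops violating exponential decay -/
structure LSeq {D V : Type} (T : TMap D V) (s : ℕ → D) (ℓ : ℕ → ℕ) (Λ : ℕ → Finset V)
    (A : ℕ → Finset (Finset V)) (H : ℕ → Finset V → Finset V) : Prop where
  sub : ∀ n, A n ⊆ (Λ n).powerset
  ne : ∀ n, (A n).Nonempty
  loop : ∀ n, ∀ ω ∈ A n, T.IsLoop (colF ω) (s n) (ℓ n) (H n ω)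
  reach : ∀ n, ∀ d ∈ T.ball (s n) (8 * ℓ n), T.lf d ∈ Λ n
  lim : Tendsto ℓ atTop atTop
  big : ∀ ε : ℝ, 0 < ε → ∀ᶠ n in atTop,
    Real.exp (-(ε * ℓ n)) * 2 ^ (Λ n).card ≤ ((A n).card : ℝ)

/-- the sampled code -/
noncomputable def sam {D V : Type} (T : TMap D V) (θ : D → ℤ) (s : ℕ → D) (ℓ : ℕ → ℕ)
    (H : ℕ → Finset V → Finset V) (n : ℕ) (ω : Finset V) (k : ℕ) : Cod :=
  T.enc θ (T.smp (colF ω) (fun m => T.hull (H n ω : Set V) m) (s n) (ℓ n) k)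

/-- `μ` is the limit along `𝒰` of the laws of the sampled codes -/
def IsLim {D V : Type} (T : TMap D V) (θ : D → ℤ) (s : ℕ → D) (ℓ : ℕ → ℕ)
    (A : ℕ → Finset (Finset V)) (H : ℕ → Finset V → Finset V) (𝒰 : Filter ℕ) (μ : Measure Cod) :
    Prop :=
  ∀ f : Cod → ℝ, Continuous f →
    Tendsto (fun n => (∑ ω ∈ A n, ∑ k ∈ Finset.range (ℓ n + 1), f (sam T θ s ℓ H n ω k))
      / ((A n).card * (ℓ n + 1))) 𝒰 (𝓝 (∫ X, f X ∂μ))

/-- The properties of the limit law (forward half; the backward half is the same for `map Mi μ`). -/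
structure Half (Δ K : ℕ) (μ : Measure Cod) : Prop where
  valid : ∀ᵐ X ∂μ, Valid Δ K X
  good : ∀ᵐ X ∂μ, ∀ (D V : Type) (T : TMap D V) (θ : D → ℤ) (E : Env D V),
    IsRep Δ K T θ E X → T.Good E
  shift : MeasurePreserving Sh μ μ
  flip : ∀ S : Finset Gam, Measure.map (fun X => PrP (FlP Δ S X)) μ = Measure.map PrP μ
  drift : ∀ m : ℕ, K * Δ ≤ m →
    (1 : ℝ) / Δ ≤ ∫ X, (if X (.beta m) A then 0 else th0 K X) ∂μ
  mono : ∀ᵐ X ∂μ, ∀ (m : ℕ) (g : Gam), X (.beta (m + 1)) g = true → X (.beta m) g = true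
  change : ∃ C : ℝ, ∀ m : ℕ, 1 ≤ m → μ.real {X | X (.beta m) A ≠ (Sh X) (.beta m) A} ≤ C / m
  old : ∀ᵐ X ∂μ, ∀ (D V : Type) (T : TMap D V) (θ : D → ℤ) (E : Env D V), IsRep Δ K T θ E X →
    ∀ m : ℕ, ∀ e ∈ E.P, T.rt e = T.rt E.r →
      (∀ j : ℕ, j ≤ Δ * (m + 1) → T.st E.c E.r (-(j : ℤ)) ≠ e) → T.rt E.r ∈ E.B m
  cross : ∀ᵐ X ∂μ, ∀ (D V : Type) (T : TMap D V) (θ : D → ℤ) (E : Env D V), IsRep Δ K T θ E X →
    ∀ i i' : ℤ, i < i' → ∀ e ∈ E.F, ∀ e' ∈ E.P, (∀ j : ℤ, T.st E.c E.r j ≠ e) →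
      (∀ j : ℤ, T.st E.c E.r j ≠ e') → T.lf e = T.lf (T.st E.c E.r i) →
      T.lf e' = T.lf (T.st E.c E.r i') → T.lf (T.st E.c E.r i) = T.lf (T.st E.c E.r i')

/-- F1b: tool for lower bounds of integrals and for null sets -/
def HToolStmt : Prop :=
  ∀ (D V : Type) (T : TMap D V) (θ : D → ℤ) (s : ℕ → D) (ℓ : ℕ → ℕ)
    (A : ℕ → Finset (Finset V)) (H : ℕ → Finset V → Finset V) (𝒰 : Filter ℕ)
    (μ : Measure Cod), (∀ n, (A n).Nonempty) → Tendsto ℓ atTop atTop → 𝒰.NeBot →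
    𝒰 ≤ atTop → IsProbabilityMeasure μ → IsLim T θ s ℓ A H 𝒰 μ →
    (∀ (f : Cod → ℝ) (a C : ℝ), Continuous f →
      (∀ᶠ n in atTop, ∀ ω ∈ A n,
        a * (ℓ n + 1) - C ≤ ∑ k ∈ Finset.range (ℓ n + 1), f (sam T θ s ℓ H n ω k)) →
      a ≤ ∫ X, f X ∂μ) ∧
    (∀ (U : Set Cod) (C : ℕ), IsClopen U →
      (∀ᶠ n in atTop, ∀ ω ∈ A n, ∀ F : Finset ℕ, F ⊆ Finset.range (ℓ n + 1) →
        (∀ k ∈ F, sam T θ s ℓ H n ω k ∈ U) → F.card ≤ C) → μ U = 0)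

/-- F2 -/
def MirSeqStmt : Prop :=
  ∀ (D V : Type) (T : TMap D V) (Δ K : ℕ) (θ : D → ℤ) (s : ℕ → D) (ℓ : ℕ → ℕ)
    (Λ : ℕ → Finset V) (A : ℕ → Finset (Finset V)) (H : ℕ → Finset V → Finset V) (𝒰 : Filter ℕ)
    (μ : Measure Cod), T.Planar → T.Deg Δ → T.IsFlow K θ → LSeq T s ℓ Λ A H → 𝒰.NeBot →
    𝒰 ≤ atTop → IsProbabilityMeasure μ → IsLim T θ s ℓ A H 𝒰 μ →
    LSeq T.mirror s ℓ Λ A H ∧ IsLim T.mirror θ s ℓ A H 𝒰 (Measure.map Mi μ)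

/-- F3-F9: one module per field of `Half` -/
def HalfStmt (p : ℕ → ℕ → Measure Cod → Prop) : Prop :=
  ∀ (D V : Type) (T : TMap D V) (Δ K : ℕ) (θ : D → ℤ) (s : ℕ → D) (ℓ : ℕ → ℕ)
    (Λ : ℕ → Finset V) (A : ℕ → Finset (Finset V)) (H : ℕ → Finset V → Finset V) (𝒰 : Filter ℕ)
    (μ : Measure Cod), T.Planar → T.Deg Δ → T.IsFlow K θ → LSeq T s ℓ Λ A H → 𝒰.NeBot →
    𝒰 ≤ atTop → IsProbabilityMeasure μ → IsLim T θ s ℓ A H 𝒰 μ → p Δ K μ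

def HValidStmt : Prop := HalfStmt (fun Δ K μ => ∀ᵐ X ∂μ, Valid Δ K X)

def HGoodStmt : Prop := HalfStmt (fun Δ K μ =>
  ∀ᵐ X ∂μ, ∀ (D V : Type) (T : TMap D V) (θ : D → ℤ) (E : Env D V),
    IsRep Δ K T θ E X → T.Good E)

def HShiftStmt : Prop := HalfStmt (fun _ _ μ => MeasurePreserving Sh μ μ)

def HFlipStmt : Prop := HalfStmt (fun Δ _ μ =>
  ∀ S : Finset Gam, Measure.map (fun X => PrP (FlP Δ S X)) μ = Measure.map PrP μ)

def HDriftStmt : Prop := HalfStmt (fun Δ K μ => ∀ m : ℕ, K * Δ ≤ m →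
    (1 : ℝ) / Δ ≤ ∫ X, (if X (.beta m) A then 0 else th0 K X) ∂μ)

def HMonoStmt : Prop := HalfStmt (fun _ _ μ =>
  ∀ᵐ X ∂μ, ∀ (m : ℕ) (g : Gam), X (.beta (m + 1)) g = true → X (.beta m) g = true)

def HChangeStmt : Prop := HalfStmt (fun _ _ μ =>
  ∃ C : ℝ, ∀ m : ℕ, 1 ≤ m → μ.real {X | X (.beta m) A ≠ (Sh X) (.beta m) A} ≤ C / m)

def HOldStmt : Prop := HalfStmt (fun Δ K μ =>
  ∀ᵐ X ∂μ, ∀ (D V : Type) (T : TMap D V) (θ : D → ℤ) (E : Env D V), IsRep Δ K T θ E X →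
    ∀ m : ℕ, ∀ e ∈ E.P, T.rt e = T.rt E.r →
      (∀ j : ℕ, j ≤ Δ * (m + 1) → T.st E.c E.r (-(j : ℤ)) ≠ e) → T.rt E.r ∈ E.B m)

def HCrossStmt : Prop := HalfStmt (fun Δ K μ =>
  ∀ᵐ X ∂μ, ∀ (D V : Type) (T : TMap D V) (θ : D → ℤ) (E : Env D V), IsRep Δ K T θ E X →
    ∀ i i' : ℤ, i < i' → ∀ e ∈ E.F, ∀ e' ∈ E.P, (∀ j : ℤ, T.st E.c E.r j ≠ e) →
      (∀ j : ℤ, T.st E.c E.r j ≠ e') → T.lf e = T.lf (T.st E.c E.r i) →
      T.lf e' = T.lf (T.st E.c E.r i') → T.lf (T.st E.c E.r i) = T.lf (T.st E.c E.r i'))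

/-! ## G. Ergodic theory (general) -/

/-- G0: pointwise ergodic theorem for bounded functions -/
def BirkStmt : Prop :=
  ∀ (Ω : Type) (_ : MeasurableSpace Ω) (μ : Measure Ω), IsProbabilityMeasure μ →
    ∀ (T : Ω → Ω), MeasurePreserving T μ μ →
    ∀ f : Ω → ℝ, Measurable f → (∃ C, ∀ x, |f x| ≤ C) →
      ∀ᵐ x ∂μ, ∃ a : ℝ,
        Tendsto (fun n : ℕ => (∑ k ∈ Finset.range n, f (T^[k] x)) / n) atTop (𝓝 a)

/-- G1: pointwise ergodic theorem for bounded functions, both directions, same limit,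
and the limit on invariant sets -/
def ErgStmt : Prop :=
  ∀ (Ω : Type) (_ : MeasurableSpace Ω) (μ : Measure Ω), IsProbabilityMeasure μ →
    ∀ (T S : Ω → Ω), MeasurePreserving T μ μ → MeasurePreserving S μ μ →
    (∀ᵐ x ∂μ, S (T x) = x) → (∀ᵐ x ∂μ, T (S x) = x) →
    ∀ f : Ω → ℝ, Measurable f → (∃ C, ∀ x, |f x| ≤ C) →
      (∀ᵐ x ∂μ, ∃ a : ℝ,
        Tendsto (fun n : ℕ => (∑ k ∈ Finset.range n, f (T^[k] x)) / n) atTop (𝓝 a) ∧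
        Tendsto (fun n : ℕ => (∑ k ∈ Finset.range n, f (S^[k] x)) / n) atTop (𝓝 a)) ∧
      ∀ W : Set Ω, MeasurableSet W → (∀ᵐ x ∂μ, x ∈ W ↔ T x ∈ W) → 0 < ∫ x in W, f x ∂μ →
        0 < μ {x | x ∈ W ∧ ∃ a : ℝ, 0 < a ∧
          Tendsto (fun n : ℕ => (∑ k ∈ Finset.range n, f (T^[k] x)) / n) atTop (𝓝 a)}

/-! ## H. Typical environments -/

/-- forward words of the interface -/
def wf (X : Cod) : ℕ → Gam
  | 0 => 1
  | n + 1 => (if X .col (A * L * wf X n) then A * L⁻¹ * A else L) * wf X n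

/-- backward words of the interface -/
def wb (X : Cod) : ℕ → Gam
  | 0 => 1
  | n + 1 => (if X .col (A * L⁻¹ * wb X n) then A * L * A else L⁻¹) * wb X n

/-- words of the interface -/
def wz (X : Cod) : ℤ → Gam
  | Int.ofNat n => wf X n
  | Int.negSucc n => wb X (n + 1)

/-- value of the flow at `g • r` -/
noncomputable def thv (K : ℕ) (X : Cod) (g : Gam) : ℝ :=
  ∑ z ∈ Finset.Icc (-(K : ℤ)) K, if X (.th z) g then (z : ℝ) else 0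

/-- `g • r` is past-marked and not on the interface -/
def cOld (X : Cod) (g : Gam) : Prop := X .past g = true ∧ ∀ j : ℤ, X .eq (g⁻¹ * wz X j) = false

/-- equality of left vertices -/
def cSame (X : Cod) (g h : Gam) : Prop := ∃ n : ℕ, X .eq (g⁻¹ * L ^ n * h) = true

/-- the left vertex at time `i` was visited in the old past -/
def cLO (X : Cod) (i : ℤ) : Prop := ∃ g : Gam, cOld X g ∧ cSame X g (wz X i)

/-- the right vertex at time `i` was visited in the old past -/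
def cRO (X : Cod) (i : ℤ) : Prop := ∃ g : Gam, cOld X g ∧ cSame X (A * g) (A * wz X i)

/-- typical codes -/
structure cTyp (K : ℕ) (X : Cod) : Prop where
  state : X .col 1 = true ∧ X .col A = false
  inj : ∀ i j : ℤ, i ≠ j → X .eq ((wz X i)⁻¹ * wz X j) = false
  memP : ∀ i : ℤ, X .past (wz X i) = true ↔ i ≤ 0
  avg : ∃ a : ℝ,
    Tendsto (fun n : ℕ => (∑ k ∈ Finset.range n, thv K X (wz X (k : ℤ))) / n) atTop (𝓝 a) ∧
    Tendsto (fun n : ℕ => (∑ k ∈ Finset.range n, thv K X (wz X (-(k : ℤ)))) / n) atTop (𝓝 a)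
  lo : (∀ i : ℤ, i ≤ 0 → ¬ cLO X i) → ∀ i : ℤ, ¬ cLO X i
  ro : (∀ i : ℤ, i ≤ 0 → ¬ cRO X i) → ∀ i : ℤ, ¬ cRO X i

/-- H1 -/
def TypMeasStmt : Prop :=
  (∀ K, MeasurableSet {X | cTyp K X}) ∧ (∀ i, MeasurableSet {X | cLO X i}) ∧
  (∀ i, MeasurableSet {X | cRO X i}) ∧ (∀ (i : ℤ) (g : Gam), MeasurableSet {X | wz X i = g}) ∧
  (∀ K X, cTyp K (PrP X) ↔ cTyp K X)

/-- H2 -/
def TypRepStmt : Prop :=
  ∀ (Δ K : ℕ) (D V : Type) (T : TMap D V) (θ : D → ℤ) (E : Env D V) (X : Cod),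
    IsRep Δ K T θ E X → T.State E.c E.r →
    (∀ i : ℤ, T.act (wz X i) E.r = T.st E.c E.r i) ∧
    (∀ i : ℤ, cLO X i ↔ ∃ e ∈ E.P, (∀ j : ℤ, T.st E.c E.r j ≠ e) ∧ T.lf e = T.lf (T.st E.c E.r i)) ∧
    (∀ i : ℤ, cRO X i ↔ ∃ e ∈ E.P, (∀ j : ℤ, T.st E.c E.r j ≠ e) ∧ T.rt e = T.rt (T.st E.c E.r i)) ∧
    (cTyp K X ↔ T.TypE θ E)

/-- H3 -/
def TypAeStmt : Prop :=
  ∀ (Δ K : ℕ) (μ : Measure Cod), IsProbabilityMeasure μ → Half Δ K μ → Half Δ K (Measure.map Mi μ) →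
    ∀ᵐ X ∂μ, cTyp K X

/-- H4 -/
def FlipTypStmt : Prop :=
  ∀ (Δ K : ℕ) (μ : Measure Cod), IsProbabilityMeasure μ → Half Δ K μ → Half Δ K (Measure.map Mi μ) →
    ∀ᵐ X ∂μ, cTyp K (FlT Δ X) ∧ ∀ S : Finset Gam, cTyp K (FlP Δ S X)

/-- H5 -/
def CoreStmt : Prop :=
  ∀ (Δ K : ℕ) (μ : Measure Cod), IsProbabilityMeasure μ → Half Δ K μ → Half Δ K (Measure.map Mi μ) →
    ∀ W : Set Cod, MeasurableSet W → (∀ᵐ X ∂μ, X ∈ W ↔ Sh X ∈ W) → 0 < ∫ X in W, th0 K X ∂μ →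
    (∀ᵐ X ∂μ, X ∈ W → ∀ (D V : Type) (T : TMap D V) (θ : D → ℤ) (E : Env D V), IsRep Δ K T θ E X →
      T.NoR E.P E.c E.r ∧ T.NoR E.F E.c E.r ∧ T.NoL E.P E.c E.r) → False

/-- H6 -/
def RNoStmt : Prop :=
  ∀ (Δ K : ℕ) (μ : Measure Cod), IsProbabilityMeasure μ → Half Δ K μ → Half Δ K (Measure.map Mi μ) →
    (∀ᵐ X ∂μ, (∀ m, X (.beta m) A = true) ↔ ∀ m, (Sh X) (.beta m) A = true) ∧
    (∀ᵐ X ∂μ, (∃ m, X (.beta m) A = false) →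
      ∀ (D V : Type) (T : TMap D V) (θ : D → ℤ) (E : Env D V), IsRep Δ K T θ E X →
        T.NoR E.P E.c E.r ∧ T.NoR E.F E.c E.r) ∧
    0 < ∫ X in {X | ∃ m, X (.beta m) A = false}, th0 K X ∂μ

/-- H7 -/
def LNoStmt : Prop :=
  ∀ (Δ K : ℕ) (μ : Measure Cod), IsProbabilityMeasure μ → Half Δ K μ → Half Δ K (Measure.map Mi μ) →
    ∀ᵐ X ∂μ, ∀ (D V : Type) (T : TMap D V) (θ : D → ℤ) (E : Env D V), IsRep Δ K T θ E X →
      T.NoL E.P E.c E.r ∨ T.NoL E.F E.c E.r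

/-- H8 -/
def NoLimStmt : Prop :=
  ∀ (Δ K : ℕ) (μ : Measure Cod), IsProbabilityMeasure μ → Half Δ K μ → Half Δ K (Measure.map Mi μ) →
    False

/-- exponential decay of loops at `p = 1/2` -/
def EDStmt : Prop :=
  ∀ (D V : Type) (T : TMap D V) (Δ K : ℕ) (θ : D → ℤ), T.Planar → T.Deg Δ → T.IsFlow K θ →
    ∃ ε : ℝ, 0 < ε ∧ ∃ N : ℕ, ∀ (s : D) (ℓ : ℕ), N ≤ ℓ → ∀ Λ : Finset V,
      (∀ d ∈ T.ball s (8 * ℓ), T.lf d ∈ Λ) →
      open Classical in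
      (((Λ.powerset.filter (fun ω => ∃ H, T.IsLoop (colF ω) s ℓ H)).card : ℕ) : ℝ)
        ≤ Real.exp (-(ε * ℓ)) * 2 ^ Λ.card

end Pool.Agent.BS
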