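import Pool.Agent.Helper47_BS.Stmts

/-! # BS squad: flow, clusters, percolation -/

set_option autoImplicit false

namespace Pool.Agent.BS

open Function Filter MeasureTheory Topology

/-! ## I. Flow -/

/-- edge Cheeger inequality -/
def TMap.Cheeger {D V : Type} (T : TMap D V) (h : ℝ) : Prop :=
  ∀ S : Finset V, S.Nonempty → h * S.card ≤ (T.bd S).card

/-- I1: Hall type statement: an injective map from two copies of the vertices moving everything by a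
bounded distance -/
def HallStmt : Prop :=
  ∀ (D V : Type) (T : TMap D V) (Δ : ℕ) (h : ℝ), T.Deg Δ → 0 < h → T.Cheeger h → Nonempty V →
    ∃ (r : ℕ) (f : V × Bool → V), Injective f ∧
      ∀ x : V × Bool, ∃ d e : D, T.lf d = x.1 ∧ e ∈ T.ball d r ∧ T.lf e = f x

/-- I2 -/
def FlowStmt : Prop :=
  ∀ (D V : Type) (T : TMap D V) (Δ : ℕ) (h : ℝ), T.Deg Δ → 0 < h → T.Cheeger h → Nonempty V →
    ∃ (K : ℕ) (θ : D → ℤ), T.IsFlow K θ

/-! ## J. Clusters and loops (deterministic) -/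

/-- the open cluster of `x` (empty if `x` is closed) -/
def TMap.clu {D V : Type} (T : TMap D V) (c : V → Bool) (x : V) : Set V :=
  {y | c x = true ∧ T.Reach {v | c v = false} x y}

/-- J1: the filled-in cluster -/
def FillStmt : Prop :=
  ∀ (D V : Type) (T : TMap D V), T.Planar → Infinite V → ∀ (c : V → Bool) (x : V),
    c x = true → (T.clu c x).Finite →
    ∃ H : Finset V, T.clu c x ⊆ H ∧ T.Conn (H : Set V) ∧ T.Conn (H : Set V)ᶜ ∧
      (∀ d, T.lf d ∈ H → T.rt d ∉ H → T.lf d ∈ T.clu c x ∧ c (T.rt d) = false) ∧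
      (∀ d d', T.lf d ∈ H → T.rt d ∉ H → T.lf d' ∈ H → T.rt d' ∉ H →
        T.Reach {v | c v = true} (T.rt d) (T.rt d')) ∧
      (∀ d, T.lf d ∈ H → T.rt d ∉ H → ∃ ℓ, T.IsLoop c d ℓ H)

/-- J2: nested loops -/
def NestStmt : Prop :=
  ∀ (D V : Type) (T : TMap D V), T.Planar → Infinite V → ∀ c : V → Bool,
    (∀ x, (T.clu c x).Finite) → (∀ x, (T.clu (fun v => !(c v)) x).Finite) →
    ∀ F : Finset V, ∃ H : Finset V, F ⊆ H ∧
      ∀ d, T.lf d ∈ H → T.rt d ∉ H → ∃ ℓ, T.IsLoop c d ℓ H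

/-- J3: rays -/
def RayStmt : Prop :=
  ∀ (D V : Type) (T : TMap D V), Infinite V → ∀ o : V, ∃ e : ℕ → D, T.lf (e 0) = o ∧
    (∀ n, T.rt (e n) = T.lf (e (n + 1))) ∧ Injective (fun n => T.lf (e n))

/-- J4: if the cluster of `o` is finite and has at least `N` vertices, there is a long loop through an
edge of the ray; likewise infinitely many such loops if all clusters are finite -/
def RayLoopStmt : Prop :=
  ∀ (D V : Type) (T : TMap D V) (Δ K : ℕ) (θ : D → ℤ) (e : ℕ → D), T.Planar → T.Deg Δ →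
    T.IsFlow K θ → (∀ n, T.rt (e n) = T.lf (e (n + 1))) → Injective (fun n => T.lf (e n)) →
    (∀ (c : V → Bool) (N : ℕ), c (T.lf (e 0)) = true → (T.clu c (T.lf (e 0))).Finite →
      N ≤ (T.clu c (T.lf (e 0))).ncard →
      ∃ (n ℓ : ℕ) (H : Finset V), n + 1 ≤ K * ℓ ∧ N ≤ K * ℓ ∧ T.IsLoop c (e n) ℓ H) ∧
    (∀ c : V → Bool, (∀ x, (T.clu c x).Finite) → (∀ x, (T.clu (fun v => !(c v)) x).Finite) →
      ∀ N : ℕ, ∃ (n ℓ : ℕ) (H : Finset V), N ≤ n ∧ n + 1 ≤ K * ℓ ∧ T.IsLoop c (e n) ℓ H)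

/-! ## K. Percolation -/

/-- Bernoulli site percolation -/
noncomputable def Per (V : Type) (p : NNReal) (hp : p ≤ 1) : Measure (V → Bool) :=
  Measure.infinitePi (fun _ : V => (PMF.bernoulli p hp).toMeasure)

/-- K1: probability of an event depending on the colors in a finite set -/
def PerFinStmt : Prop :=
  ∀ (V : Type) (p : NNReal) (hp : p ≤ 1) (Λ : Finset V) (S : Set (V → Bool)),
    (∀ c c' : V → Bool, (∀ v ∈ Λ, c v = c' v) → (c ∈ S ↔ c' ∈ S)) →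
    MeasurableSet S ∧
    open Classical in
    (Per V p hp).real S = ∑ ω ∈ Λ.powerset.filter (fun ω => colF ω ∈ S),
      (p : ℝ) ^ ω.card * (1 - (p : ℝ)) ^ (Λ.card - ω.card)

/-- K2: the symmetry of colors at `p = 1/2` -/
def PerSymStmt : Prop :=
  ∀ (V : Type) (p : NNReal) (hp : p ≤ 1), p = 1 / 2 →
    MeasurePreserving (fun (c : V → Bool) (v : V) => !(c v)) (Per V p hp) (Per V p hp)

/-- K3: exponential decay for `p` slightly below `1/2` -/
def PerDecayStmt : Prop :=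
  ∀ (D V : Type) (T : TMap D V) (Δ K : ℕ) (θ : D → ℤ), T.Planar → T.Deg Δ → T.IsFlow K θ →
    ∃ ε : ℝ, 0 < ε ∧ ∃ N : ℕ, ∃ p₀ : NNReal, p₀ < 1 / 2 ∧
      ∀ (p : NNReal) (hp : p ≤ 1), p₀ ≤ p → p ≤ 1 / 2 → ∀ (s : D) (ℓ : ℕ), N ≤ ℓ →
        MeasurableSet {c : V → Bool | ∃ H, T.IsLoop c s ℓ H} ∧
        (Per V p hp).real {c | ∃ H, T.IsLoop c s ℓ H} ≤ Real.exp (-(ε * ℓ))

/-- K4: percolation at `1/2` -/
def PerHalfStmt : Prop :=
  ∀ (D V : Type) (T : TMap D V) (Δ K : ℕ) (θ : D → ℤ), T.Planar → T.Deg Δ → T.IsFlow K θ →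
    Nonempty V → ∀ (p : NNReal) (hp : p ≤ 1), p = 1 / 2 →
      ∃ x : V, 0 < Per V p hp {c | (T.clu c x).Infinite}

/-- K5: percolation below `1/2` -/
def PerBelowStmt : Prop :=
  ∀ (D V : Type) (T : TMap D V) (Δ K : ℕ) (θ : D → ℤ), T.Planar → T.Deg Δ → T.IsFlow K θ →
    Nonempty V → ∃ (p : NNReal) (hp : p ≤ 1), p < 1 / 2 ∧
      ∃ x : V, 0 < Per V p hp {c | (T.clu c x).Infinite}

end Pool.Agent.BS
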