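import Pool.Agent.Helper47_BS.StmtsP

/-! # BS squad: topology of the plane, from the embedding to a planar rotation system -/

set_option autoImplicit false

namespace Pool.Agent.BS

open Function Filter Topology Set

/-! ## L. Logarithms and arcs -/

/-- L1 -/
def LogStmt : Prop :=
  ∀ F : ℂ → ℂ, Continuous F → (∀ z, F z ≠ 0) → ∃ g : ℂ → ℂ, Continuous g ∧ ∀ z, Complex.exp (g z) = F z

/-- L2 (Borsuk) -/
def BorsukStmt : Prop :=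
  ∀ (K : Set ℂ) (z₁ z₂ : ℂ) (m m' : ℤ), IsCompact K → z₁ ∉ K → z₂ ∉ K →
    Bornology.IsBounded (connectedComponentIn Kᶜ z₁) → z₂ ∉ connectedComponentIn Kᶜ z₁ → m ≠ 0 →
    ¬ ∃ g : ℂ → ℂ, ContinuousOn g K ∧ ∀ x ∈ K, Complex.exp (g x) = (x - z₁) ^ m * (x - z₂) ^ m'

/-- `K` is an arc with end points `x`, `y` -/
def IsArc (K : Set ℂ) (x y : ℂ) : Prop :=
  ∃ α : ℝ → ℂ, ContinuousOn α (Icc 0 1) ∧ InjOn α (Icc 0 1) ∧ α 0 = x ∧ α 1 = y ∧ α '' Icc 0 1 = K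

/-- L3: nonvanishing functions on arcs have logarithms -/
def ArcLogStmt : Prop :=
  ∀ (K : Set ℂ) (x y : ℂ), IsArc K x y → ∀ F : ℂ → ℂ, ContinuousOn F K → (∀ z ∈ K, F z ≠ 0) →
    ∃ g : ℂ → ℂ, ContinuousOn g K ∧ ∀ z ∈ K, Complex.exp (g z) = F z

/-- L4: reversing, concatenating and cutting arcs -/
def ArcOpStmt : Prop :=
  (∀ K x y, IsArc K x y → IsArc K y x) ∧
  (∀ K x y, IsArc K x y → IsCompact K ∧ IsConnected K ∧ x ∈ K ∧ y ∈ K ∧ x ≠ y) ∧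
  (∀ K K' x y z, IsArc K x y → IsArc K' y z → K ∩ K' = {y} → IsArc (K ∪ K') x z) ∧
  (∀ K x y w, IsArc K x y → w ∈ K → w ≠ x → w ≠ y →
    ∃ K₁ K₂, IsArc K₁ x w ∧ IsArc K₂ w y ∧ K₁ ∪ K₂ = K ∧ K₁ ∩ K₂ = {w}) ∧
  (∀ K x y w, IsArc K x y → w ∈ K → w ≠ x → w ≠ y → ∀ ε : ℝ, 0 < ε →
    ∃ K₁ K₂ x' y', IsArc K₁ x x' ∧ IsArc K₂ y' y ∧ K₁ ∪ K₂ ⊆ K ∧ Disjoint K₁ K₂ ∧
      w ∉ K₁ ∪ K₂ ∧ ∀ v ∈ K, v ∉ K₁ ∪ K₂ → dist v w < ε)

/-- L5: closed subsets of arcs do not separate the plane; arcs have empty interior -/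
def ArcComplStmt : Prop :=
  ∀ (K : Set ℂ) (x y : ℂ), IsArc K x y →
    (∀ K' : Set ℂ, K' ⊆ K → IsClosed K' → IsConnected K'ᶜ) ∧ interior K = ∅

/-- `w` is the increment of a logarithm of `t - z` along `K` from `x` to `y` -/
def IsInc (K : Set ℂ) (x y z w : ℂ) : Prop :=
  ∃ g : ℂ → ℂ, ContinuousOn g K ∧ (∀ t ∈ K, Complex.exp (g t) = t - z) ∧ g y - g x = w

open Classical in
/-- the increment -/
noncomputable def inc (K : Set ℂ) (x y z : ℂ) : ℂ :=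
  if h : ∃ w, IsInc K x y z w then h.choose else 0

/-- L6: basic properties of increments -/
def IncStmt : Prop :=
  ∀ (K : Set ℂ) (x y : ℂ), IsArc K x y → ∀ z ∉ K,
    IsInc K x y z (inc K x y z) ∧ (∀ w, IsInc K x y z w → w = inc K x y z) ∧
    inc K y x z = - inc K x y z ∧ Complex.exp (inc K x y z) = (y - z) / (x - z) ∧
    (∀ K' w, IsArc K' y w → K ∩ K' = {y} → z ∉ K' →
      inc (K ∪ K') x w z = inc K x y z + inc K' y w z)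

/-- two arcs with the same end points and otherwise disjoint -/
structure IsJor (K₁ K₂ : Set ℂ) (x y : ℂ) : Prop where
  arc₁ : IsArc K₁ x y
  arc₂ : IsArc K₂ x y
  inter : K₁ ∩ K₂ = {x, y}

/-- (2πi times) the winding number -/
noncomputable def wnd (K₁ K₂ : Set ℂ) (x y z : ℂ) : ℂ := inc K₁ x y z - inc K₂ x y z

/-- L7: winding numbers of Jordan curves, easy part -/
def WndStmt : Prop :=
  ∀ (K₁ K₂ : Set ℂ) (x y : ℂ), IsJor K₁ K₂ x y →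
    (∀ z ∉ K₁ ∪ K₂, ∃ n : ℤ, wnd K₁ K₂ x y z = n * (2 * Real.pi * Complex.I)) ∧
    (∀ z ∉ K₁ ∪ K₂, ∀ z' ∈ connectedComponentIn (K₁ ∪ K₂)ᶜ z,
      wnd K₁ K₂ x y z' = wnd K₁ K₂ x y z) ∧
    (∀ z ∉ K₁ ∪ K₂, ¬ Bornology.IsBounded (connectedComponentIn (K₁ ∪ K₂)ᶜ z) →
      wnd K₁ K₂ x y z = 0)

/-- L8: bounded components have nonzero winding number, there is at most one, and then the unbounded
component touches every point of the curve -/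
def JordanStmt : Prop :=
  ∀ (K₁ K₂ : Set ℂ) (x y : ℂ), IsJor K₁ K₂ x y →
    (∀ z ∉ K₁ ∪ K₂, Bornology.IsBounded (connectedComponentIn (K₁ ∪ K₂)ᶜ z) →
      wnd K₁ K₂ x y z ≠ 0) ∧
    (∀ z ∉ K₁ ∪ K₂, ∀ z' ∉ K₁ ∪ K₂, Bornology.IsBounded (connectedComponentIn (K₁ ∪ K₂)ᶜ z) →
      Bornology.IsBounded (connectedComponentIn (K₁ ∪ K₂)ᶜ z') →
      connectedComponentIn (K₁ ∪ K₂)ᶜ z = connectedComponentIn (K₁ ∪ K₂)ᶜ z') ∧
    (∀ z ∉ K₁ ∪ K₂, Bornology.IsBounded (connectedComponentIn (K₁ ∪ K₂)ᶜ z) →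
      ∀ z' ∉ K₁ ∪ K₂, ¬ Bornology.IsBounded (connectedComponentIn (K₁ ∪ K₂)ᶜ z') →
      ∀ w ∈ K₁, w ≠ x → w ≠ y → w ∈ closure (connectedComponentIn (K₁ ∪ K₂)ᶜ z'))

/-! ## M. The embedded graph -/

/-- a proper plane embedding with triangular faces (the hypothesis of the frozen statement) -/
structure Emb {V : Type} (G : SimpleGraph V) (φ : V → ℂ) (γ : V → V → ℝ → ℂ) : Prop where
  inj : Injective φ
  arc : ∀ u v, G.Adj u v → ContinuousOn (γ u v) (Icc 0 1) ∧ InjOn (γ u v) (Icc 0 1) ∧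
    γ u v 0 = φ u ∧ γ u v 1 = φ v ∧ γ u v '' Icc 0 1 = γ v u '' Icc 0 1
  vtx : ∀ u v w, G.Adj u v → ∀ s ∈ Icc (0:ℝ) 1, γ u v s = φ w → w = u ∨ w = v
  cross : ∀ u v x y, G.Adj u v → G.Adj x y → ∀ s ∈ Icc (0:ℝ) 1, ∀ t ∈ Icc (0:ℝ) 1,
    γ u v s = γ x y t → (u = x ∧ v = y) ∨ (u = y ∧ v = x) ∨ ∃ w, γ u v s = φ w
  fin : ∀ K : Set ℂ, IsCompact K →
    {p : V × V | G.Adj p.1 p.2 ∧ (γ p.1 p.2 '' Icc 0 1 ∩ K).Nonempty}.Finite
  tri : ∀ z : ℂ, (∀ u v, G.Adj u v → z ∉ γ u v '' Icc 0 1) →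
    ∃ a b c, G.Adj a b ∧ G.Adj b c ∧ G.Adj c a ∧
      frontier (connectedComponentIn {y : ℂ | ∀ u v, G.Adj u v → y ∉ γ u v '' Icc 0 1} z) =
        γ a b '' Icc 0 1 ∪ γ b c '' Icc 0 1 ∪ γ c a '' Icc 0 1

/-- the edge as a set -/
def edg {V : Type} (γ : V → V → ℝ → ℂ) (u v : V) : Set ℂ := γ u v '' Icc 0 1

/-- the complement of the drawing -/
def away {V : Type} (G : SimpleGraph V) (γ : V → V → ℝ → ℂ) : Set ℂ :=
  {y : ℂ | ∀ u v, G.Adj u v → y ∉ γ u v '' Icc 0 1}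

/-- the face of a point -/
def face {V : Type} (G : SimpleGraph V) (γ : V → V → ℝ → ℂ) (z : ℂ) : Set ℂ :=
  connectedComponentIn (away G γ) z

/-- the three edges of a triangle -/
def trg {V : Type} (γ : V → V → ℝ → ℂ) (a b c : V) : Set ℂ := edg γ a b ∪ edg γ b c ∪ edg γ c a

/-- (2πi times) winding number of a triangle -/
noncomputable def wtr {V : Type} (φ : V → ℂ) (γ : V → V → ℝ → ℂ) (a b c : V) (z : ℂ) : ℂ :=
  inc (edg γ a b) (φ a) (φ b) z + inc (edg γ b c) (φ b) (φ c) z + inc (edg γ c a) (φ c) (φ a) z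

/-- standing hypotheses -/
structure EmbCtx {V : Type} (G : SimpleGraph V) (φ : V → ℂ) (γ : V → V → ℝ → ℂ) : Prop where
  emb : Emb G φ γ
  conn : G.Connected
  inf : Infinite V
  locfin : ∀ v, (G.neighborSet v).Finite

/-- M1: basic facts on the drawing -/
def DrawStmt : Prop :=
  ∀ (V : Type) (G : SimpleGraph V) (φ : V → ℂ) (γ : V → V → ℝ → ℂ), EmbCtx G φ γ →
    (∀ a b, G.Adj a b → IsArc (edg γ a b) (φ a) (φ b) ∧ edg γ a b = edg γ b a) ∧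
    (∀ a b c, G.Adj a b → φ c ∈ edg γ a b → c = a ∨ c = b) ∧
    (∀ a b c d, G.Adj a b → G.Adj c d → ∀ z ∈ edg γ a b, z ∈ edg γ c d →
      (a = c ∧ b = d) ∨ (a = d ∧ b = c) ∨ ∃ w, z = φ w ∧ (w = a ∨ w = b) ∧ (w = c ∨ w = d)) ∧
    IsOpen (away G γ) ∧ Dense (away G γ) ∧
    (∀ a b c, G.Adj a b → G.Adj b c → G.Adj c a →
      IsJor (edg γ a b) (edg γ a c ∪ edg γ c b) (φ a) (φ b)) ∧
    (∀ a b c c', G.Adj a b → G.Adj b c → G.Adj c a → G.Adj b c' → G.Adj c' a → c ≠ c' →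
      IsJor (edg γ a c ∪ edg γ c b) (edg γ a c' ∪ edg γ c' b) (φ a) (φ b))

/-- M2: every face is the bounded complementary component of its triangle -/
def FaceStmt : Prop :=
  ∀ (V : Type) (G : SimpleGraph V) (φ : V → ℂ) (γ : V → V → ℝ → ℂ), EmbCtx G φ γ →
    (∀ z ∈ away G γ, ∃ a b c, G.Adj a b ∧ G.Adj b c ∧ G.Adj c a ∧
      frontier (face G γ z) = trg γ a b c) ∧
    (∀ z ∈ away G γ, ∀ a b c, G.Adj a b → G.Adj b c → G.Adj c a →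
      frontier (face G γ z) = trg γ a b c →
      face G γ z = connectedComponentIn (trg γ a b c)ᶜ z ∧ Bornology.IsBounded (face G γ z)) ∧
    (∀ z ∈ away G γ, ∀ z' ∈ away G γ, frontier (face G γ z) = frontier (face G γ z') →
      face G γ z = face G γ z') ∧
    (∀ K : Set ℂ, IsCompact K → {f | ∃ z ∈ away G γ, f = face G γ z ∧ (f ∩ K).Nonempty}.Finite)

/-- M3: every edge is on two faces -/
def TwoFaceStmt : Prop :=
  ∀ (V : Type) (G : SimpleGraph V) (φ : V → ℂ) (γ : V → V → ℝ → ℂ), EmbCtx G φ γ →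
    ∀ a b, G.Adj a b → ∃ z ∈ away G γ, ∃ z' ∈ away G γ, face G γ z ≠ face G γ z' ∧
      ∃ c c', G.Adj b c ∧ G.Adj c a ∧ G.Adj b c' ∧ G.Adj c' a ∧
        frontier (face G γ z) = trg γ a b c ∧ frontier (face G γ z') = trg γ a b c'

/-- M4: two faces on an edge have opposite orientations -/
def OppStmt : Prop :=
  ∀ (V : Type) (G : SimpleGraph V) (φ : V → ℂ) (γ : V → V → ℝ → ℂ), EmbCtx G φ γ →
    ∀ a b c, G.Adj a b → G.Adj b c → G.Adj c a →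
      ∀ z ∈ away G γ, frontier (face G γ z) = trg γ a b c →
      (∃ n : ℤ, n ≠ 0 ∧ wtr φ γ a b c z = n * (2 * Real.pi * Complex.I)) ∧
      wtr φ γ b c a z = wtr φ γ a b c z ∧ wtr φ γ a c b z = - wtr φ γ a b c z ∧
      (∀ z' ∈ face G γ z, wtr φ γ a b c z' = wtr φ γ a b c z) ∧
      ∀ c', G.Adj b c' → G.Adj c' a → ∀ z' ∈ away G γ, frontier (face G γ z') = trg γ a b c' →
        face G γ z ≠ face G γ z' → wtr φ γ a b c' z' = - wtr φ γ a b c z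

/-- positively oriented face triangles -/
def PF {V : Type} (G : SimpleGraph V) (φ : V → ℂ) (γ : V → V → ℝ → ℂ) (a b c : V) : Prop :=
  G.Adj a b ∧ G.Adj b c ∧ G.Adj c a ∧ ∃ z ∈ away G γ, frontier (face G γ z) = trg γ a b c ∧
    0 < (wtr φ γ a b c z).im

/-- M5: combinatorics of face triangles -/
def PFStmt : Prop :=
  ∀ (V : Type) (G : SimpleGraph V) (φ : V → ℂ) (γ : V → V → ℝ → ℂ), EmbCtx G φ γ →
    (∀ a b c, PF G φ γ a b c → PF G φ γ b c a) ∧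
    (∀ a b, G.Adj a b → ∃! c, PF G φ γ a b c) ∧
    (∀ z ∈ away G γ, ∀ a b c, G.Adj a b → G.Adj b c → G.Adj c a →
      frontier (face G γ z) = trg γ a b c → PF G φ γ a b c ∨ PF G φ γ a c b)

/-- the open star of a vertex -/
def ostar {V : Type} (G : SimpleGraph V) (φ : V → ℂ) (γ : V → V → ℝ → ℂ) (a : V) : Set ℂ :=
  {z | z = φ a ∨ (∃ b, G.Adj a b ∧ z ∈ edg γ a b ∧ z ≠ φ b) ∨
    (z ∈ away G γ ∧ φ a ∈ closure (face G γ z))}

/-- M6: open stars -/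
def StarStmt : Prop :=
  ∀ (V : Type) (G : SimpleGraph V) (φ : V → ℂ) (γ : V → V → ℝ → ℂ), EmbCtx G φ γ →
    (∀ a, IsOpen (ostar G φ γ a)) ∧ (∀ a, IsPreconnected (ostar G φ γ a)) ∧
    (∀ z, ∃ a, z ∈ ostar G φ γ a) ∧ LocallyFinite (ostar G φ γ) ∧
    (∀ a b, φ b ∈ ostar G φ γ a → a = b) ∧
    (∀ a b, a ≠ b → (ostar G φ γ a ∩ ostar G φ γ b).Nonempty → G.Adj a b) ∧
    (∀ a b c, a ≠ b → b ≠ c → c ≠ a →
      (ostar G φ γ a ∩ ostar G φ γ b ∩ ostar G φ γ c).Nonempty → PF G φ γ a b c ∨ PF G φ γ a c b) ∧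
    (∀ a, ∀ z ∈ ostar G φ γ a, z ≠ φ a → ∃ b, b ≠ a ∧ z ∈ ostar G φ γ b)

/-- L9: integer Cech cohomology of the plane vanishes -/
def CechStmt : Prop :=
  ∀ (V : Type) (U : V → Set ℂ), (∀ v, IsOpen (U v)) → (∀ v, IsPreconnected (U v)) →
    (∀ z, ∃ v, z ∈ U v) → LocallyFinite U → ∀ c : V → V → ℤ,
    (∀ u v w, (U u ∩ U v ∩ U w).Nonempty → c u v + c v w = c u w) →
    ∃ χ : V → ℤ, ∀ u v, (U u ∩ U v).Nonempty → c u v = χ u - χ v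

/-- M7: what remains of the topology -/
def CombStmt : Prop :=
  ∀ (V : Type) (G : SimpleGraph V) (φ : V → ℂ) (γ : V → V → ℝ → ℂ), EmbCtx G φ γ →
    (∀ c : V → V → ℤ, (∀ a b, G.Adj a b → c b a = - c a b) →
      (∀ a b d, PF G φ γ a b d → c a b + c b d + c d a = 0) →
      ∃ χ : V → ℤ, ∀ a b, G.Adj a b → c a b = χ a - χ b) ∧
    (∀ χ : V → ℤ, {p : V × V | G.Adj p.1 p.2 ∧ χ p.1 ≠ χ p.2}.Finite →
      ∃ k : ℤ, {v | χ v ≠ k}.Finite) ∧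
    (∀ (a : V) (χ : V → ℤ), (∀ b d, G.Adj b d → b ≠ a → d ≠ a → χ b = χ d) →
      ∀ b d, b ≠ a → d ≠ a → χ b = χ d)

/-- M8: the rotation system of an embedded triangulation -/
def TopoStmt : Prop :=
  ∀ (V : Type) (G : SimpleGraph V) (φ : V → ℂ) (γ : V → V → ℝ → ℂ), EmbCtx G φ γ →
    ∃ T : TMap {p : V × V // G.Adj p.1 p.2} V, T.Planar ∧ (∀ d, T.lf d = d.1.1) ∧
      ∀ d, T.rt d = d.1.2

end Pool.Agent.BS
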